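import Mathlib

/-! Abel summation for exponential sums from a counting function, and a contraction lemma. -/

namespace Pool.Agent.P.MP_26a8c3_nt.QG

open MeasureTheory Set Filter Topology

section Abel

variable {ι : Type*} (M : ι → ℝ)

/-- counting function -/
noncomputable def cn (y : ℝ) : ℝ := ({i | M i ≤ y}.ncard : ℝ)

variable {M}

theorem cn_mono (hf : ∀ y, {i | M i ≤ y}.Finite) : Monotone (cn M) := by
  intro a b hab
  unfold cn
  exact_mod_cast Set.ncard_le_ncard (fun i (hi : M i ≤ a) => le_trans hi hab) (hf b)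

/-- the pieces -/
noncomputable def pc (a u : ℝ) : ℝ := (Ici a).indicator (fun u => Real.exp (-u)) u

theorem pc_nonneg (a u : ℝ) : 0 ≤ pc a u :=
  Set.indicator_nonneg (fun _ _ => (Real.exp_pos _).le) _

theorem pc_int (a : ℝ) : Integrable (pc a) (volume.restrict (Ioi (0 : ℝ))) := by
  have h : IntegrableOn (fun u : ℝ => Real.exp (-u)) (Ioi 0) := integrableOn_exp_neg_Ioi 0
  exact Integrable.indicator h measurableSet_Ici

theorem pc_val {a : ℝ} (ha : 0 < a) : ∫ u in Ioi (0 : ℝ), pc a u = Real.exp (-a) := by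
  unfold pc
  rw [setIntegral_indicator measurableSet_Ici]
  have : Ioi (0 : ℝ) ∩ Ici a = Ici a := by
    ext u; simp only [mem_inter_iff, mem_Ioi, mem_Ici]
    exact ⟨fun h => h.2, fun h => ⟨lt_of_lt_of_le ha h, h⟩⟩
  rw [this, integral_Ici_eq_integral_Ioi, integral_exp_neg_Ioi]

theorem tsum_pc (hf : ∀ y, {i | M i ≤ y}.Finite) {l : ℝ} (hl : 0 < l) (u : ℝ) :
    HasSum (fun i => pc (l * M i) u) (cn M (u / l) * Real.exp (-u)) := by
  classical
  have h1 : HasSum (fun i => pc (l * M i) u) (∑ i ∈ (hf (u / l)).toFinset, pc (l * M i) u) := by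
    apply hasSum_sum_of_ne_finset_zero
    intro i hi
    rw [Set.Finite.mem_toFinset, mem_ofPred_eq, le_div_iff₀ hl, mul_comm] at hi
    exact Set.indicator_of_notMem (by simpa using hi) _
  have h2 : ∑ i ∈ (hf (u / l)).toFinset, pc (l * M i) u = cn M (u / l) * Real.exp (-u) := by
    rw [Finset.sum_congr rfl (g := fun _ => Real.exp (-u)), Finset.sum_const, nsmul_eq_mul, cn,
      Set.ncard_eq_toFinset_card _ (hf (u / l))]
    intro i hi
    rw [Set.Finite.mem_toFinset, mem_ofPred_eq, le_div_iff₀ hl, mul_comm] at hi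
    exact Set.indicator_of_mem (by simpa using hi) _
  rwa [h2] at h1

theorem gam_int {r : ℝ} (hr : 0 < r) :
    IntegrableOn (fun u : ℝ => u ^ r * Real.exp (-u)) (Ioi 0) := by
  have := Real.GammaIntegral_convergent (s := r + 1) (by linarith)
  refine this.congr_fun (fun u _ => ?_) measurableSet_Ioi
  simp [mul_comm]

theorem gam_val {r : ℝ} (hr : 0 < r) :
    ∫ u in Ioi (0 : ℝ), u ^ r * Real.exp (-u) = Real.Gamma (r + 1) := by
  rw [Real.Gamma_eq_integral (by linarith)]
  refine setIntegral_congr_fun measurableSet_Ioi (fun u _ => ?_)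
  simp [mul_comm]

theorem cn_meas (hf : ∀ y, {i | M i ≤ y}.Finite) {l : ℝ} (hl : 0 < l) :
    Measurable fun u : ℝ => cn M (u / l) * Real.exp (-u) := by
  have h : Monotone fun u : ℝ => cn M (u / l) := fun a b hab =>
    cn_mono hf (div_le_div_of_nonneg_right hab hl.le)
  exact h.measurable.mul (by fun_prop)

theorem cn_bd {r K : ℝ} (hK : ∀ y, 0 < y → cn M y ≤ K * y ^ r) {l : ℝ} (hl : 0 < l) {u : ℝ}
    (hu : 0 < u) : ‖l ^ r * (cn M (u / l) * Real.exp (-u))‖ ≤ K * (u ^ r * Real.exp (-u)) := by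
  have h0 : 0 ≤ cn M (u / l) := Nat.cast_nonneg _
  have h1 := hK (u / l) (div_pos hu hl)
  rw [Real.div_rpow hu.le hl.le] at h1
  have h2 : 0 < l ^ r := Real.rpow_pos_of_pos hl _
  rw [Real.norm_of_nonneg (by positivity)]
  have h3 : l ^ r * cn M (u / l) ≤ K * u ^ r := by
    calc l ^ r * cn M (u / l) ≤ l ^ r * (K * (u ^ r / l ^ r)) := by gcongr
      _ = K * u ^ r := by field_simp
  calc l ^ r * (cn M (u / l) * Real.exp (-u)) = (l ^ r * cn M (u / l)) * Real.exp (-u) := by ring
    _ ≤ (K * u ^ r) * Real.exp (-u) := by gcongr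
    _ = _ := by ring

theorem cn_int (hf : ∀ y, {i | M i ≤ y}.Finite) {r K : ℝ} (hr : 0 < r)
    (hK : ∀ y, 0 < y → cn M y ≤ K * y ^ r) {l : ℝ} (hl : 0 < l) :
    IntegrableOn (fun u : ℝ => l ^ r * (cn M (u / l) * Real.exp (-u))) (Ioi 0) := by
  refine Integrable.mono' ((gam_int hr).const_mul K)
    ((cn_meas hf hl).const_mul _).aestronglyMeasurable ?_
  filter_upwards [ae_restrict_mem measurableSet_Ioi] with u hu using cn_bd hK hl hu

theorem abel_hasSum [Countable ι] (hp : ∀ i, 0 < M i) (hf : ∀ y, {i | M i ≤ y}.Finite) {r K : ℝ}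
    (hr : 0 < r) (hK : ∀ y, 0 < y → cn M y ≤ K * y ^ r) {l : ℝ} (hl : 0 < l) :
    HasSum (fun i => Real.exp (-(l * M i)))
      (∫ u in Ioi (0 : ℝ), cn M (u / l) * Real.exp (-u)) := by
  have h2 : 0 < l ^ r := Real.rpow_pos_of_pos hl _
  have hi : IntegrableOn (fun u : ℝ => cn M (u / l) * Real.exp (-u)) (Ioi 0) := by
    have := (cn_int hf hr hK hl).const_mul (l ^ r)⁻¹
    refine this.congr (Eventually.of_forall fun u => ?_)
    simp only
    field_simp
  have hs : Summable fun i => ∫ u in Ioi (0 : ℝ), ‖pc (l * M i) u‖ := by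
    refine summable_of_sum_le (c := ∫ u in Ioi (0 : ℝ), cn M (u / l) * Real.exp (-u))
      (fun i => integral_nonneg fun u => norm_nonneg _) fun s => ?_
    rw [← integral_finsetSum _ fun i _ => (pc_int _).norm]
    refine integral_mono (integrable_finsetSum _ fun i _ => (pc_int _).norm) hi fun u => ?_
    simp only [Real.norm_of_nonneg (pc_nonneg _ _)]
    exact sum_le_hasSum s (fun i _ => pc_nonneg _ _) (tsum_pc hf hl u)
  have h := hasSum_integral_of_summable_integral_norm (F := fun i => pc (l * M i))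
    (fun i => pc_int _) hs
  simp only [fun u => (tsum_pc hf hl u).tsum_eq, fun i => pc_val (mul_pos hl (hp i))] at h
  exact h

theorem abel_bd [Countable ι] (hp : ∀ i, 0 < M i) (hf : ∀ y, {i | M i ≤ y}.Finite) {r K : ℝ}
    (hr : 0 < r) (hK : ∀ y, 0 < y → cn M y ≤ K * y ^ r) {l : ℝ} (hl : 0 < l) :
    l ^ r * ∑' i, Real.exp (-(l * M i)) ≤ K * Real.Gamma (r + 1) := by
  rw [(abel_hasSum hp hf hr hK hl).tsum_eq, ← integral_const_mul, ← gam_val hr,
    ← integral_const_mul]
  refine setIntegral_mono_on (cn_int hf hr hK hl) ((gam_int hr).const_mul K) measurableSet_Ioi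
    fun u hu => (le_abs_self _).trans (cn_bd hK hl hu)

theorem abel_lim [Countable ι] (hp : ∀ i, 0 < M i) (hf : ∀ y, {i | M i ≤ y}.Finite) {r K α : ℝ}
    (hr : 0 < r) (hK : ∀ y, 0 < y → cn M y ≤ K * y ^ r)
    (hα : Tendsto (fun y => cn M y / y ^ r) atTop (𝓝 α)) :
    Tendsto (fun l => l ^ r * ∑' i, Real.exp (-(l * M i))) (𝓝[>] 0)
      (𝓝 (α * Real.Gamma (r + 1))) := by
  have h : Tendsto (fun l : ℝ => ∫ u in Ioi (0 : ℝ), l ^ r * (cn M (u / l) * Real.exp (-u)))
      (𝓝[>] 0) (𝓝 (∫ u in Ioi (0 : ℝ), α * (u ^ r * Real.exp (-u)))) := by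
    refine tendsto_integral_filter_of_dominated_convergence
      (fun u => K * (u ^ r * Real.exp (-u))) ?_ ?_ ((gam_int hr).const_mul K) ?_
    · filter_upwards [self_mem_nhdsWithin] with l hl
      exact ((cn_meas hf hl).const_mul _).aestronglyMeasurable
    · filter_upwards [self_mem_nhdsWithin] with l hl
      filter_upwards [ae_restrict_mem measurableSet_Ioi] with u hu using cn_bd hK hl hu
    · filter_upwards [ae_restrict_mem measurableSet_Ioi] with u hu
      have hu0 : (0 : ℝ) < u := hu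
      have h1 : Tendsto (fun l : ℝ => u / l) (𝓝[>] 0) atTop := by
        simpa only [div_eq_mul_inv] using tendsto_inv_nhdsGT_zero.const_mul_atTop hu0
      have h2 := (hα.comp h1).mul_const (u ^ r * Real.exp (-u))
      refine h2.congr' ?_
      filter_upwards [self_mem_nhdsWithin] with l hl
      have hl0 : (0 : ℝ) < l := hl
      have h3 : 0 < l ^ r := Real.rpow_pos_of_pos hl0 _
      have h4 : 0 < u ^ r := Real.rpow_pos_of_pos hu0 _
      simp only [Function.comp]
      rw [Real.div_rpow hu0.le hl0.le]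
      field_simp
  rw [integral_const_mul, gam_val hr] at h
  refine h.congr' ?_
  filter_upwards [self_mem_nhdsWithin] with l hl
  rw [(abel_hasSum hp hf hr hK hl).tsum_eq, ← integral_const_mul]

end Abel

/-- a bounded solution of `a = b + θ a ∘ g` converges when `b` does -/
theorem contr {X : Type*} {F : Filter X} {g : X → X} (hg : Tendsto g F F) {a b : X → ℂ} {θ B : ℂ}
    {K : ℝ} (hθ : ‖θ‖ < 1) (hK : ∀ᶠ x in F, ‖a x‖ ≤ K) (hb : Tendsto b F (𝓝 B))
    (h : ∀ᶠ x in F, a x = b x + θ * a (g x)) : Tendsto a F (𝓝 (B / (1 - θ))) := by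
  have h1 : (1 : ℂ) - θ ≠ 0 := by
    intro h0
    have : θ = 1 := by linear_combination -h0
    simp [this] at hθ
  set L := B / (1 - θ) with hL
  have hLB : L = B + θ * L := by rw [hL]; field_simp; ring
  have ht : 0 < 1 - ‖θ‖ := by linarith
  have key : ∀ η : ℝ, 0 < η → ∀ n : ℕ, ∀ᶠ x in F, ‖a x - L‖ ≤ η + ‖θ‖ ^ n * (K + ‖L‖) := by
    intro η hη n
    induction n with
    | zero =>
      filter_upwards [hK] with x hx
      have := norm_sub_le (a x) L
      simp only [pow_zero, one_mul]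
      linarith
    | succ n ih =>
      have hb' : ∀ᶠ x in F, ‖b x - B‖ < η * (1 - ‖θ‖) := by
        have := (Metric.tendsto_nhds.1 hb) (η * (1 - ‖θ‖)) (mul_pos hη ht)
        simpa only [dist_eq_norm] using this
      filter_upwards [h, hb', hg.eventually ih] with x hx h2 h3
      have e : a x - L = (b x - B) + θ * (a (g x) - L) := by
        rw [hx]; linear_combination -hLB
      have h4 : ‖a x - L‖ ≤ ‖b x - B‖ + ‖θ‖ * ‖a (g x) - L‖ := by
        rw [e, ← norm_mul]; exact norm_add_le _ _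
      have h5 : ‖θ‖ * ‖a (g x) - L‖ ≤ ‖θ‖ * (η + ‖θ‖ ^ n * (K + ‖L‖)) := by gcongr
      rw [pow_succ]
      nlinarith
  rw [Metric.tendsto_nhds]
  intro ε hε
  have h2 : Tendsto (fun n : ℕ => ‖θ‖ ^ n * (K + ‖L‖)) atTop (𝓝 (0 * (K + ‖L‖))) :=
    (tendsto_pow_atTop_nhds_zero_of_lt_one (norm_nonneg _) hθ).mul_const _
  rw [zero_mul] at h2
  obtain ⟨n, hn⟩ := (h2.eventually (gt_mem_nhds (show (0 : ℝ) < ε / 2 by linarith))).exists
  filter_upwards [key (ε / 4) (by linarith) n] with x hx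
  rw [dist_eq_norm]
  linarith

end Pool.Agent.P.MP_26a8c3_nt.QG
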