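import Pool.Agent.P.MP_26a8c3_nt.QO.Eis
import Pool.Agent.P.MP_26a8c3_nt.QG.An

/-! The exponential sum over cubes of primary elements weighted by `φ(n) / N n`. -/

namespace Pool.Agent.P.MP_26a8c3_nt.QG

open Filter Topology QO
open scoped Classical

/-- number of primary elements of norm at most `y` -/
noncomputable def cP (y : ℝ) : ℝ := ({n : O | Primary n ∧ (N n : ℝ) ≤ y}.ncard : ℝ)

/-- the counting input -/
structure CntH : Prop where
  sum2 : Summable fun c : O => ((N c : ℝ) ^ 2)⁻¹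
  bd : ∃ K, ∀ y, 0 < y → cP y ≤ K * y
  lim : ∃ α, 0 < α ∧ Tendsto (fun y => cP y / y) atTop (𝓝 α)

/-- primary elements -/
abbrev PO := {n : O // Primary n}
/-- primary primes -/
abbrev PP := {p : O // Prime p ∧ Primary p}

theorem tsum_dvd {E : Type*} [NormedAddCommGroup E] {a : O} (ha : a ≠ 0) (F : O → E) :
    ∑' c : O, (if a ∣ c then F c else 0) = ∑' c : O, F (a * c) := by
  have hi : Function.Injective fun c : O => a * c := fun x y h => mul_left_cancel₀ ha h
  rw [← hi.tsum_eq (f := fun c => if a ∣ c then F c else 0)]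
  · simp
  · intro c hc
    by_cases h : a ∣ c
    · obtain ⟨d, rfl⟩ := h; exact ⟨d, rfl⟩
    · simp [h] at hc

theorem coprime_of_ne {p q : O} (hp : Prime p) (hq : Prime q) (h1 : Primary p) (h2 : Primary q)
    (h : p ≠ q) : IsCoprime p q :=
  hp.irreducible.coprime_iff_not_dvd.2 fun hd =>
    h (h1.eq_of_associated h2 (hp.associated_of_dvd hq hd))

theorem primary_mul_iff {a c : O} (ha : Primary a) : Primary (a * c) ↔ Primary c :=
  ⟨fun h => h.of_mul ha, fun h => ha.mul h⟩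

theorem exists_pp {n : O} (hn : Primary n) (h1 : n ≠ 1) : ∃ p, Prime p ∧ Primary p ∧ p ∣ n := by
  obtain ⟨q, hq, hd⟩ := WfDvdMonoid.exists_irreducible_factor
    (fun h => h1 (hn.eq_one_of_isUnit h)) hn.ne_zero
  exact ⟨normalize q, (normalize_associated q).symm.prime hq.prime,
    primary_normalize fun h => hn.not_lam_dvd (h.trans hd), (normalize_associated q).dvd.trans hd⟩

/-- induction over primary elements by full prime powers -/
theorem primary_ind {P : O → Prop} (h1 : P 1)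
    (hs : ∀ (p : O) (k : ℕ) (n : O), Prime p → Primary p → Primary n → ¬p ∣ n → P n →
      P (p ^ (k + 1) * n)) {n : O} (hn : Primary n) : P n := by
  induction' hN : N n using Nat.strong_induction_on with m ih generalizing n
  by_cases h : n = 1
  · rwa [h]
  obtain ⟨p, hp, hp1, hd⟩ := exists_pp hn h
  obtain ⟨k, a, ha, rfl⟩ := WfDvdMonoid.max_power_factor hn.ne_zero hp.irreducible
  have ha1 : Primary a := hn.of_mul (hp1.pow k)
  cases k with
  | zero => exact absurd (by simpa using hd) ha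
  | succ k =>
    refine hs p k a hp hp1 ha1 ha (ih (N a) ?_ ha1 rfl)
    rw [← hN, map_mul, map_pow]
    have h2 := two_le_N hp
    have h3 := N_pos ha1.ne_zero
    have h4 : 1 < N p ^ (k + 1) := Nat.one_lt_pow (by omega) (by omega)
    nlinarith

theorem fin_pd {n : O} (hn : n ≠ 0) : {p : PP | p.1 ∣ n}.Finite :=
  ((finite_N_le (N n)).preimage Subtype.val_injective.injOn).subset fun _ h => N_le_of_dvd h hn

/-- the primary primes dividing `n` -/
noncomputable def pd (n : O) : Finset PP := if h : n ≠ 0 then (fin_pd h).toFinset else ∅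

theorem mem_pd {n : O} (hn : n ≠ 0) {p : PP} : p ∈ pd n ↔ p.1 ∣ n := by simp [pd, hn]

/-- `φ(n) / N n` -/
noncomputable def ff (n : O) : ℝ := ∏ p ∈ pd n, (1 - (N p.1 : ℝ)⁻¹)

theorem ff_one : ff 1 = 1 := by
  have : pd 1 = ∅ := Finset.eq_empty_of_forall_notMem fun p hp =>
    p.2.1.not_dvd_one ((mem_pd one_ne_zero).1 hp)
  simp [ff, this]

theorem inv_N_lt {p : O} (hp : Prime p) : (N p : ℝ)⁻¹ ≤ 1 / 2 := by
  have : (2 : ℝ) ≤ N p := by exact_mod_cast two_le_N hp
  rw [one_div]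
  gcongr

theorem ff_nonneg (n : O) : 0 ≤ ff n :=
  Finset.prod_nonneg fun p _ => by have := inv_N_lt p.2.1; linarith

theorem ff_le (n : O) : ff n ≤ 1 :=
  Finset.prod_le_one (fun p _ => by have := inv_N_lt p.2.1; linarith) fun p _ => by
    have : (0 : ℝ) ≤ (N p.1 : ℝ)⁻¹ := by positivity
    linarith

theorem ff_pow {p n : O} (k : ℕ) (hp : Prime p) (h1 : Primary p) (hn : n ≠ 0) (h : ¬p ∣ n) :
    ff (p ^ (k + 1) * n) = (1 - (N p : ℝ)⁻¹) * ff n := by
  have h0 : p ^ (k + 1) * n ≠ 0 := mul_ne_zero (pow_ne_zero _ hp.ne_zero) hn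
  have e : pd (p ^ (k + 1) * n) = insert ⟨p, hp, h1⟩ (pd n) := by
    ext q
    rw [mem_pd h0, Finset.mem_insert, mem_pd hn, q.2.1.dvd_mul]
    refine or_congr ⟨fun hq => Subtype.ext ?_, ?_⟩ Iff.rfl
    · exact q.2.2.eq_of_associated h1 (q.2.1.associated_of_dvd hp (q.2.1.dvd_of_dvd_pow hq))
    · rintro rfl; exact dvd_pow_self _ k.succ_ne_zero
  rw [ff, e, Finset.prod_insert (by rw [mem_pd hn]; exact h), ff]

/-- product of a finite set of primes -/
noncomputable def aS (S : Finset PP) : O := ∏ p ∈ S, p.1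

theorem aS_primary (S : Finset PP) : Primary (aS S) :=
  Finset.prod_induction _ Primary (fun _ _ => Primary.mul) primary_one fun p _ => p.2.2

theorem aS_dvd {S : Finset PP} {n : O} (hn : n ≠ 0) : aS S ∣ n ↔ S ⊆ pd n := by
  refine ⟨fun h p hp => (mem_pd hn).2 ((Finset.dvd_prod_of_mem _ hp).trans h), fun h => ?_⟩
  exact Finset.prod_dvd_of_coprime (fun p _ q _ hpq => coprime_of_ne p.2.1 q.2.1 p.2.2 q.2.2
    fun e => hpq (Subtype.ext e)) fun p hp => (mem_pd hn).1 (h hp)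

/-- the Moebius coefficient -/
noncomputable def cS (S : Finset PP) : ℝ := ∏ p ∈ S, -(N p.1 : ℝ)⁻¹

theorem N_aS (S : Finset PP) : (N (aS S) : ℝ) = ∏ p ∈ S, (N p.1 : ℝ) := by
  simp [aS, map_prod]

theorem abs_cS (S : Finset PP) : |cS S| = (N (aS S) : ℝ)⁻¹ := by
  rw [cS, Finset.abs_prod, N_aS, ← Finset.prod_inv_distrib]
  exact Finset.prod_congr rfl fun p _ => by simp

theorem ff_eq {n : O} (hn : n ≠ 0) : ff n = ∑' S : Finset PP, if aS S ∣ n then cS S else 0 := by
  rw [tsum_eq_sum (s := (pd n).powerset)]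
  · rw [ff]
    simp only [sub_eq_add_neg]
    rw [Finset.prod_one_add]
    refine Finset.sum_congr rfl fun S hS => ?_
    rw [if_pos ((aS_dvd hn).2 (Finset.mem_powerset.1 hS)), cS]
  · intro S hS
    rw [if_neg fun h => hS (Finset.mem_powerset.2 ((aS_dvd hn).1 h))]

/-- the exponential weight on primary elements -/
noncomputable def Ex (l : ℝ) (n : O) : ℝ :=
  if Primary n then Real.exp (-(l * (N n : ℝ) ^ 3)) else 0

theorem Ex_nonneg (l : ℝ) (n : O) : 0 ≤ Ex l n := by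
  unfold Ex; split_ifs; exacts [(Real.exp_pos _).le, le_rfl]

theorem Ex_mul (l : ℝ) {a : O} (ha : Primary a) (n : O) :
    Ex l (a * n) = Ex (l * (N a : ℝ) ^ 3) n := by
  simp only [Ex, primary_mul_iff ha, map_mul, Nat.cast_mul, mul_pow, mul_assoc]

/-- cube of the norm -/
noncomputable def M3 (n : PO) : ℝ := (N n.1 : ℝ) ^ 3

theorem le_third {x y : ℝ} (hx : 0 ≤ x) (hy : 0 < y) : x ^ 3 ≤ y ↔ x ≤ y ^ (1 / 3 : ℝ) := by
  rw [one_div, Real.le_rpow_inv_iff_of_pos hx hy.le (by norm_num)]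
  norm_cast

theorem cn_M3 {y : ℝ} (hy : 0 < y) : cn M3 y = cP (y ^ (1 / 3 : ℝ)) := by
  unfold cn cP
  rw [← Set.ncard_image_of_injective _ Subtype.val_injective]
  congr 2
  ext n
  simp only [Set.mem_image, Set.mem_ofPred_eq, M3, le_third (Nat.cast_nonneg _) hy]
  exact ⟨by rintro ⟨a, h, rfl⟩; exact ⟨a.2, h⟩, fun h => ⟨⟨n, h.1⟩, h.2, rfl⟩⟩

theorem fin_M3 (y : ℝ) : {n | M3 n ≤ y}.Finite := by
  refine ((finite_N_le_real y).preimage Subtype.val_injective.injOn).subset fun n hn => ?_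
  exact le_trans (le_self_pow₀ (one_le_N n.2.ne_zero) (by norm_num)) hn

theorem pos_M3 (n : PO) : 0 < M3 n := pow_pos (N_pos_real n.2.ne_zero) _

theorem Ex_ind (l : ℝ) :
    Ex l = {n | Primary n}.indicator fun n : O => Real.exp (-(l * (N n : ℝ) ^ 3)) := by
  ext n; simp [Ex, Set.indicator]

theorem tsum_Ex (l : ℝ) : ∑' n, Ex l n = ∑' n : PO, Real.exp (-(l * M3 n)) := by
  rw [Ex_ind, ← tsum_subtype]; rfl

theorem T_all (h : CntH) : ∃ K C : ℝ, 0 < C ∧ (∀ l, 0 < l → Summable (Ex l) ∧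
    l ^ (1 / 3 : ℝ) * ∑' n, Ex l n ≤ K) ∧
    Tendsto (fun l => l ^ (1 / 3 : ℝ) * ∑' n, Ex l n) (𝓝[>] 0) (𝓝 C) := by
  obtain ⟨K, hK⟩ := h.bd
  obtain ⟨α, hα, hl⟩ := h.lim
  have h3 : (0 : ℝ) < 1 / 3 := by norm_num
  have hK' : ∀ y, 0 < y → cn M3 y ≤ K * y ^ (1 / 3 : ℝ) := fun y hy => by
    rw [cn_M3 hy]; exact hK _ (Real.rpow_pos_of_pos hy _)
  have hl' : Tendsto (fun y => cn M3 y / y ^ (1 / 3 : ℝ)) atTop (𝓝 α) := by
    refine (hl.comp (tendsto_rpow_atTop h3)).congr' ?_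
    filter_upwards [eventually_gt_atTop 0] with y hy
    rw [cn_M3 hy]; rfl
  refine ⟨K * Real.Gamma (1 / 3 + 1), α * Real.Gamma (1 / 3 + 1),
    mul_pos hα (Real.Gamma_pos_of_pos (by norm_num)), fun l hl0 => ⟨?_, ?_⟩, ?_⟩
  · rw [Ex_ind, ← summable_subtype_iff_indicator]
    exact (abel_hasSum pos_M3 fin_M3 h3 hK' hl0).summable
  · rw [tsum_Ex]; exact abel_bd pos_M3 fin_M3 h3 hK' hl0
  · simp only [tsum_Ex]; exact abel_lim pos_M3 fin_M3 h3 hK' hl'

theorem third_mul {l x : ℝ} (hl : 0 < l) (hx : 0 < x) :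
    (l * x ^ 3) ^ (1 / 3 : ℝ) = l ^ (1 / 3 : ℝ) * x := by
  rw [Real.mul_rpow hl.le (by positivity), ← Real.rpow_natCast, ← Real.rpow_mul hx.le]
  norm_num

theorem tendsto_scale {x : ℝ} (hx : 0 < x) :
    Tendsto (fun l : ℝ => l * x) (𝓝[>] 0) (𝓝[>] 0) := by
  refine tendsto_nhdsWithin_iff.2 ⟨?_, ?_⟩
  · have : Tendsto (fun l : ℝ => l * x) (𝓝 0) (𝓝 (0 * x)) := tendsto_id.mul_const x
    rw [zero_mul] at this
    exact this.mono_left nhdsWithin_le_nhds
  · filter_upwards [self_mem_nhdsWithin] with l hl using mul_pos hl hx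

/-- the weighted sum over cubes: bounded, with a positive limit -/
theorem cube_all (h : CntH) : ∃ K C : ℝ, 0 < C ∧ (∀ l, 0 < l → Summable (Ex l) ∧
    l ^ (1 / 3 : ℝ) * ∑' n, Ex l n ≤ K) ∧
    Tendsto (fun l => l ^ (1 / 3 : ℝ) * ∑' n, ff n * Ex l n) (𝓝[>] 0) (𝓝 C) := by
  obtain ⟨K, C, hC, hb, hl⟩ := T_all h
  set t : ℝ → ℝ := fun l => l ^ (1 / 3 : ℝ) * ∑' n, Ex l n with ht
  have t0 : ∀ l, 0 < l → 0 ≤ t l := fun l hl0 =>
    mul_nonneg (Real.rpow_nonneg hl0.le _) (tsum_nonneg (Ex_nonneg l))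
  have hN : ∀ S, (0 : ℝ) < N (aS S) := fun S => N_pos_real (aS_primary S).ne_zero
  have hp2 : Summable fun p : PP => ((N p.1 : ℝ) ^ 2)⁻¹ :=
    h.sum2.comp_injective Subtype.val_injective
  have hS : Summable fun S : Finset PP => ((N (aS S) : ℝ) ^ 2)⁻¹ := by
    refine (summable_finsetProd_of_summable_nonneg (fun p => by positivity) hp2).congr fun S => ?_
    rw [N_aS, ← Finset.prod_pow, Finset.prod_inv_distrib]
  have inner : ∀ l, 0 < l → ∀ (S : Finset PP) (c : ℝ),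
      l ^ (1 / 3 : ℝ) * ∑' n, (if aS S ∣ n then c else 0) * Ex l n =
        c * (N (aS S) : ℝ)⁻¹ * t (l * (N (aS S) : ℝ) ^ 3) := by
    intro l hl0 S c
    have e : ∀ n, (if aS S ∣ n then c else 0) * Ex l n = if aS S ∣ n then c * Ex l n else 0 :=
      fun n => by split_ifs <;> simp
    simp only [e, ht]
    rw [tsum_dvd (aS_primary S).ne_zero, third_mul hl0 (hN S), tsum_mul_left]
    simp only [Ex_mul l (aS_primary S)]
    have := hN S
    field_simp
  have bdS : ∀ l, 0 < l → ∀ S : Finset PP,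
      ‖cS S * (N (aS S) : ℝ)⁻¹ * t (l * (N (aS S) : ℝ) ^ 3)‖ ≤ K * ((N (aS S) : ℝ) ^ 2)⁻¹ := by
    intro l hl0 S
    have h1 : 0 < l * (N (aS S) : ℝ) ^ 3 := mul_pos hl0 (pow_pos (hN S) _)
    have h2 := (hb _ h1).2
    have h3 := hN S
    rw [norm_mul, norm_mul, Real.norm_eq_abs, abs_cS, Real.norm_of_nonneg (t0 _ h1),
      Real.norm_of_nonneg (by positivity), mul_comm, sq, mul_inv]
    gcongr
  have main : ∀ l, 0 < l → l ^ (1 / 3 : ℝ) * ∑' n, ff n * Ex l n =
      ∑' S : Finset PP, cS S * (N (aS S) : ℝ)⁻¹ * t (l * (N (aS S) : ℝ) ^ 3) := by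
    intro l hl0
    have hl3 : 0 < l ^ (1 / 3 : ℝ) := Real.rpow_pos_of_pos hl0 _
    have hs : Summable (Function.uncurry fun (S : Finset PP) (n : O) =>
        (if aS S ∣ n then cS S else 0) * Ex l n) := by
      refine Summable.of_norm ?_
      have e : ∀ (S : Finset PP) (n : O), ‖(if aS S ∣ n then cS S else 0) * Ex l n‖ =
          (if aS S ∣ n then |cS S| else 0) * Ex l n := fun S n => by
        rw [norm_mul, Real.norm_of_nonneg (Ex_nonneg l n)]
        split_ifs <;> simp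
      rw [summable_prod_of_nonneg fun _ => norm_nonneg _]
      simp only [Function.uncurry, e]
      refine ⟨fun S => ?_, ?_⟩
      · refine Summable.of_nonneg_of_le (fun n => ?_) (fun n => ?_) ((hb l hl0).1.mul_left |cS S|)
        · rw [← e]; exact norm_nonneg _
        · have := Ex_nonneg l n
          split_ifs
          · exact le_rfl
          · rw [zero_mul]; positivity
      · refine (summable_mul_left_iff hl3.ne').1 (Summable.of_norm_bounded (hS.mul_left K) fun S => ?_)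
        rw [inner l hl0]
        refine le_of_eq_of_le ?_ (bdS l hl0 S)
        simp only [norm_mul, Real.norm_eq_abs, abs_abs]
    have e2 : ∀ n, ff n * Ex l n = ∑' S : Finset PP, (if aS S ∣ n then cS S else 0) * Ex l n := by
      intro n
      rw [tsum_mul_right]
      by_cases hn : Primary n
      · rw [ff_eq hn.ne_zero]
      · simp [Ex, hn]
    simp only [e2]
    rw [hs.tsum_comm, ← tsum_mul_left]
    exact tsum_congr fun S => inner l hl0 S _
  have lim : Tendsto (fun l => ∑' S : Finset PP,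
      cS S * (N (aS S) : ℝ)⁻¹ * t (l * (N (aS S) : ℝ) ^ 3)) (𝓝[>] 0)
      (𝓝 (∑' S : Finset PP, cS S * (N (aS S) : ℝ)⁻¹ * C)) := by
    refine tendsto_tsum_of_dominated_convergence (hS.mul_left K) (fun S => ?_) ?_
    · exact (hl.comp (tendsto_scale (pow_pos (hN S) 3))).const_mul _
    · filter_upwards [self_mem_nhdsWithin] with l hl0 using bdS l hl0
  have lim2 : Tendsto (fun l => l ^ (1 / 3 : ℝ) * ∑' n, ff n * Ex l n) (𝓝[>] 0)
      (𝓝 (∑' S : Finset PP, cS S * (N (aS S) : ℝ)⁻¹ * C)) := by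
    refine lim.congr' ?_
    filter_upwards [self_mem_nhdsWithin] with l hl0 using (main l hl0).symm
  refine ⟨K, _, lt_of_le_of_ne (ge_of_tendsto lim2 ?_) (Ne.symm ?_), hb, lim2⟩
  · filter_upwards [self_mem_nhdsWithin] with l hl0
    exact mul_nonneg (Real.rpow_nonneg (le_of_lt hl0) _)
      (tsum_nonneg fun n => mul_nonneg (ff_nonneg n) (Ex_nonneg l n))
  · have hn : Summable fun p : PP => ‖-((N p.1 : ℝ) ^ 2)⁻¹‖ := by simpa using hp2
    have e : ∀ S : Finset PP, cS S * (N (aS S) : ℝ)⁻¹ = ∏ p ∈ S, -((N p.1 : ℝ) ^ 2)⁻¹ := fun S => by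
      rw [cS, N_aS, ← Finset.prod_inv_distrib, ← Finset.prod_mul_distrib]
      exact Finset.prod_congr rfl fun p _ => by rw [sq, mul_inv]; ring
    simp only [e]
    rw [tsum_mul_right, ← tprod_one_add (summable_finsetProd_of_summable_norm hn)]
    refine mul_ne_zero (tprod_one_add_ne_zero_of_summable (fun p => ?_) hn) hC.ne'
    have h1 := inv_N_lt p.2.1
    have h2 : (0 : ℝ) ≤ (N p.1 : ℝ)⁻¹ := by positivity
    rw [← inv_pow]
    nlinarith

end Pool.Agent.P.MP_26a8c3_nt.QG
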