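import Pool.Agent.P.MP_26a8c3_nt.QG.G1

/-! The constant term: its size, its limit and the share of the multiples of a prime. -/

namespace Pool.Agent.P.MP_26a8c3_nt.QG

open QO Filter Topology
open scoped Classical

variable {X : O → O → ℂ}

theorem cop_base {e d : O} (he : IsUnit e) (j : ℕ) (hd : Primary d) : IsCoprime d (e * lam ^ j) :=
  (isCoprime_mul_unit_left_right he _ _).2 hd.isCoprime_lam.pow_right

theorem base_ne {e : O} (he : IsUnit e) (j : ℕ) : e * lam ^ j ≠ 0 :=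
  mul_ne_zero he.ne_zero (pow_ne_zero _ lam_ne_zero)

theorem exists_pow {p c : O} (hp : Prime p) (hc : c ≠ 0) (hd : p ∣ c) :
    ∃ k a, ¬p ∣ a ∧ c = p ^ (k + 1) * a := by
  obtain ⟨k, a, ha, rfl⟩ := WfDvdMonoid.max_power_factor hc hp.irreducible
  cases k with
  | zero => exact absurd (by simpa using hd) ha
  | succ k => exact ⟨k, a, ha, rfl⟩

namespace Sy

theorem base_one {u : O} (hu : u ≠ 0) (h1 : ∀ d, Primary d → X d u = 1) :
    ∃ r : ℝ, 0 < r ∧ Gs X 0 u = r := by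
  have h9 := mul_ne_zero nine_ne hu
  refine ⟨((res (9 * u)).filter Primary).card, ?_, ?_⟩
  · obtain ⟨a, ha, e⟩ := res_surj h9 1
    have : Primary a := (primary_congr (three_dvd_nine.trans ((dvd_mul_right _ _).trans e))).1
      primary_one
    exact_mod_cast Finset.card_pos.2 ⟨a, Finset.mem_filter.2 ⟨ha, this⟩⟩
  · rw [Gs, sm_eq_res h9, Finset.sum_congr rfl (g := fun d => if Primary d then 1 else 0)]
    · simp
    · intro d _
      split_ifs with hd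
      · simp [h1 d hd]
      · rfl

theorem base_real (h : Sy X) {u : O} (hu : u ≠ 0) (hc : ∀ d, Primary d → IsCoprime d u) :
    ∃ r : ℝ, 0 ≤ r ∧ Gs X 0 u = r := by
  by_cases h1 : ∀ d, Primary d → X d u = 1
  · obtain ⟨r, hr, e⟩ := base_one hu h1
    exact ⟨r, hr.le, e⟩
  push Not at h1
  obtain ⟨d, hd, hne⟩ := h1
  have e : Gs X 0 u = X d u * Gs X 0 u := by
    conv_lhs => rw [Gs, ← sm_scale (h.perG 0 u) ((cop9 hd).mul_right (hc d hd))]
    rw [Gs, ← sm_mul_left]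
    refine sm_congr fun a => ?_
    by_cases ha : Primary a
    · rw [if_pos ha, if_pos (hd.mul ha), h.mull _ _ _ hd ha]; simp
    · rw [if_neg ha, if_neg (mt (primary_mul_iff hd).1 ha), mul_zero]
  have : (X d u - 1) * Gs X 0 u = 0 := by linear_combination -e
  exact ⟨0, le_rfl, by simpa using (mul_eq_zero.1 this).resolve_left (sub_ne_zero.2 hne)⟩

theorem Gs0_pow (h : Sy X) {p c : O} (hp : Prime p) (h1 : Primary p) (hc : ¬p ∣ c) (k : ℕ) :
    Gs X 0 (p ^ (k + 1) * c) =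
      if 3 ∣ k + 1 then Gs X 0 c * ((N p : ℂ) ^ k * (N p - 1)) else 0 := by
  rw [h.Gs_pow hp h1 hc, h.gk_zero hp h1]
  split_ifs with hk
  · obtain ⟨j, hj⟩ := hk
    rw [hj, show 2 * (3 * j) = 3 * (2 * j) by ring, pow_mul, h.cube p c h1 (cop_of hp hc)]
    simp
  · simp

theorem Gs0_cube (h : Sy X) {u n : O} (hc : ∀ d, Primary d → IsCoprime d u) (hn : Primary n) :
    Gs X 0 (u * n ^ 3) = Gs X 0 u * ((N n : ℂ) ^ 3 * ff n) := by
  refine primary_ind (P := fun n => Gs X 0 (u * n ^ 3) = Gs X 0 u * ((N n : ℂ) ^ 3 * ff n))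
    (by simp [ff_one]) (fun p k n hp h1 hn hd ih => ?_) hn
  have hnd : ¬p ∣ u * n ^ 3 := fun e => (hp.dvd_mul.1 e).elim
    (hp.irreducible.coprime_iff_not_dvd.1 (hc p h1)) fun e => hd (hp.dvd_of_dvd_pow e)
  have hP : (N p : ℂ) ≠ 0 := by exact_mod_cast (N_pos hp.ne_zero).ne'
  rw [show u * (p ^ (k + 1) * n) ^ 3 = p ^ (3 * k + 2 + 1) * (u * n ^ 3) by ring,
    h.Gs0_pow hp h1 hnd, if_pos ⟨k + 1, by ring⟩, ih, ff_pow k hp h1 hn.ne_zero hd]
  push_cast [map_mul, map_pow]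
  field_simp
  ring

theorem Gs0_ne (h : Sy X) {u c : O} (hc : ∀ d, Primary d → IsCoprime d u) (hn : Primary c) :
    Gs X 0 (u * c) ≠ 0 → ∃ n, Primary n ∧ c = n ^ 3 := by
  refine primary_ind (P := fun c => Gs X 0 (u * c) ≠ 0 → ∃ n, Primary n ∧ c = n ^ 3)
    (fun _ => ⟨1, primary_one, by simp⟩) (fun p k c hp h1 _ hd ih hne => ?_) hn
  have hnd : ¬p ∣ u * c := fun e => (hp.dvd_mul.1 e).elim
    (hp.irreducible.coprime_iff_not_dvd.1 (hc p h1)) hd
  rw [mul_left_comm, h.Gs0_pow hp h1 hnd] at hne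
  split_ifs at hne with hk
  · obtain ⟨j, hj⟩ := hk
    obtain ⟨n, hn, rfl⟩ := ih (left_ne_zero_of_mul hne)
    exact ⟨p ^ j * n, (h1.pow j).mul hn, by rw [hj]; ring⟩
  · exact absurd rfl hne

theorem Gs0_real (h : Sy X) {c : O} (hc : c ≠ 0) : ∃ r : ℝ, 0 ≤ r ∧ Gs X 0 c = r := by
  by_cases h0 : Gs X 0 c = 0
  · exact ⟨0, le_rfl, by simpa using h0⟩
  obtain ⟨e, j, a, he, ha, rfl⟩ := exists_decomp hc
  obtain ⟨n, hn, rfl⟩ := h.Gs0_ne (fun d => cop_base he j) ha h0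
  obtain ⟨r, hr, e1⟩ := h.base_real (base_ne he j) fun d => cop_base he j
  refine ⟨r * ((N n : ℝ) ^ 3 * ff n), mul_nonneg hr (mul_nonneg (by positivity) (ff_nonneg n)), ?_⟩
  rw [h.Gs0_cube (fun d => cop_base he j) hn, e1]
  push_cast; rfl

end Sy

/-- the normalised coefficient of the constant term -/
noncomputable def hr (X : O → O → ℂ) (c : O) : ℝ :=
  if 3 ∣ c ∧ c ≠ 0 then (Gs X 0 c).re / N c else 0

/-- unit and exponent -/
abbrev UU := units6 × ℕ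

/-- unit times a power of `lam` -/
def ub (u : UU) : O := u.1.1 * lam ^ u.2

theorem ub_unit (u : UU) : IsUnit u.1.1 := mem_units6.1 u.1.2

theorem N_ub (u : UU) : (N (ub u) : ℝ) = 3 ^ u.2 := by
  simp [ub, isUnit_iff_N.1 (ub_unit u)]

theorem cube_inj {a b : O} (ha : Primary a) (hb : Primary b) (h : a ^ 3 = b ^ 3) : a = b :=
  ha.eq_of_associated hb ((Associated.pow_iff (by norm_num)).1 (Associated.of_eq h))

theorem phi_inj : Function.Injective fun x : UU × PO => ub x.1 * x.2.1 ^ 3 := by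
  rintro ⟨⟨⟨e, he⟩, j⟩, n, hn⟩ ⟨⟨⟨e', he'⟩, j'⟩, n', hn'⟩ h
  simp only [ub] at h
  have u1 := mem_units6.1 he
  have u2 := mem_units6.1 he'
  have k : ∀ {e n : O}, IsUnit e → Primary n → ¬lam ∣ e * n ^ 3 := fun h1 h2 h3 =>
    (h2.pow 3).not_lam_dvd ((h1.dvd_mul_left).1 h3)
  obtain ⟨rfl, h2⟩ := lam_pow_inj (k := j) (l := j') (k u1 hn) (k u2 hn') (by linear_combination h)
  have h3 : n ^ 3 = n' ^ 3 := (hn.pow 3).eq_of_associated (hn'.pow 3)
    ((associated_unit_mul_right _ _ u1).trans (h2 ▸ associated_unit_mul_left _ _ u2))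
  obtain rfl := cube_inj hn hn' h3
  obtain rfl := mul_right_cancel₀ (hn.pow 3).ne_zero h2
  rfl

namespace Sy

theorem hr_eq (h : Sy X) (c : O) :
    (if 3 ∣ c ∧ c ≠ 0 then Gs X 0 c else 0) / (N c : ℂ) = (hr X c : ℝ) := by
  unfold hr
  split_ifs with hc
  · obtain ⟨r, _, e⟩ := h.Gs0_real hc.2
    rw [e]; simp
  · simp

theorem hr_nonneg (h : Sy X) (c : O) : 0 ≤ hr X c := by
  unfold hr
  split_ifs with hc
  · obtain ⟨r, h0, e⟩ := h.Gs0_real hc.2
    rw [e]; simp only [Complex.ofReal_re]; positivity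
  · exact le_rfl

theorem hr_le (h : Sy X) (c : O) : hr X c ≤ 81 := by
  unfold hr
  split_ifs with hc
  · rw [div_le_iff₀ (N_pos_real hc.2)]
    exact (Complex.re_le_norm _).trans (h.norm_Gs 0 hc.2)
  · norm_num

theorem hr_phi (h : Sy X) (u : UU) {n : O} (hn : Primary n) :
    hr X (ub u * n ^ 3) = hr X (ub u) * ff n := by
  have h0 : ub u ≠ 0 := base_ne (ub_unit u) u.2
  have e : 3 ∣ ub u * n ^ 3 ↔ 3 ∣ ub u :=
    ⟨fun e => (hn.pow 3).isCoprime_three.symm.dvd_of_dvd_mul_right e, fun e => e.mul_right _⟩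
  have hN := N_pos_real hn.ne_zero
  have hN0 := N_pos_real h0
  by_cases h3 : 3 ∣ ub u
  · obtain ⟨r, _, e1⟩ := h.Gs0_real h0
    have e2 : Gs X 0 (ub u * n ^ 3) = (r * ((N n : ℝ) ^ 3 * ff n) : ℝ) := by
      rw [h.Gs0_cube (u := ub u) (fun d => cop_base (ub_unit u) u.2) hn, e1]; push_cast; rfl
    rw [hr, hr, if_pos ⟨e.2 h3, mul_ne_zero h0 (hn.pow 3).ne_zero⟩, if_pos ⟨h3, h0⟩, e2, e1,
      map_mul, map_pow, Complex.ofReal_re, Complex.ofReal_re]
    push_cast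
    field_simp
  · rw [hr, hr, if_neg fun e' => h3 (e.1 e'.1), if_neg fun e' => h3 e'.1, zero_mul]

theorem hr_supp (h : Sy X) (c : O)
    (hc : c ∉ Set.range fun x : UU × PO => ub x.1 * x.2.1 ^ 3) : hr X c = 0 := by
  unfold hr
  split_ifs with h0
  · by_contra hne
    obtain ⟨e, j, a, he, ha, rfl⟩ := exists_decomp h0.2
    obtain ⟨n, hn, rfl⟩ := h.Gs0_ne (fun d => cop_base he j) ha fun e => hne (by simp [e])
    exact hc ⟨((⟨e, mem_units6.2 he⟩, j), ⟨n, hn⟩), rfl⟩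
  · rfl

theorem hr_pos (h : Sy X) : 0 < hr X (ub (⟨1, by decide⟩, 6)) := by
  have e : ub (⟨1, by decide⟩, 6) = (-3) ^ 3 := by
    rw [← lam_sq]; simp only [ub]; ring
  have h0 : ((-3 : O)) ^ 3 ≠ 0 := by decide
  obtain ⟨r, h1, e1⟩ := base_one (X := X) h0 fun d hd => by
    rw [h.powr hd, h.cube d _ hd hd.isCoprime_three.symm.neg_left]
  rw [e, hr, if_pos ⟨⟨-9, by norm_num⟩, h0⟩, e1]
  exact div_pos h1 (N_pos_real h0)

theorem hr_low (h : Sy X) {p c : O} (hp : Prime p) (h1 : Primary p) (hd : p ∣ c) (h3 : ¬p ^ 3 ∣ c) :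
    hr X c = 0 := by
  unfold hr
  split_ifs with h0
  · obtain ⟨k, a, ha, rfl⟩ := exists_pow hp h0.2 hd
    rw [h.Gs0_pow hp h1 ha, if_neg fun e => h3 ((pow_dvd_pow p (Nat.le_of_dvd k.succ_pos e)).mul_right a)]
    simp
  · rfl

theorem hr_cube (h : Sy X) {p : O} (hp : Prime p) (h1 : Primary p) (c : O) :
    hr X (p ^ 3 * c) = hr X c - (N p : ℝ)⁻¹ * if p ∣ c then 0 else hr X c := by
  have e : 3 ∣ p ^ 3 * c ↔ 3 ∣ c :=
    ⟨fun e => (h1.pow 3).isCoprime_three.symm.dvd_of_dvd_mul_left e, fun e => e.mul_left _⟩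
  by_cases h0 : 3 ∣ c ∧ c ≠ 0
  swap
  · have : ¬(3 ∣ p ^ 3 * c ∧ p ^ 3 * c ≠ 0) := fun e' => h0 ⟨e.1 e'.1, right_ne_zero_of_mul e'.2⟩
    simp only [hr, if_neg h0, if_neg this]; simp
  have hP := N_pos_real hp.ne_zero
  have hN := N_pos_real h0.2
  have h0' : 3 ∣ p ^ 3 * c ∧ p ^ 3 * c ≠ 0 := ⟨e.2 h0.1, mul_ne_zero (h1.pow 3).ne_zero h0.2⟩
  simp only [hr, if_pos h0, if_pos h0']
  split_ifs with hd
  · obtain ⟨k, a, ha, rfl⟩ := exists_pow hp h0.2 hd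
    have : Gs X 0 (p ^ 3 * (p ^ (k + 1) * a)) = ((N p : ℝ) ^ 3 : ℝ) * Gs X 0 (p ^ (k + 1) * a) := by
      rw [show p ^ 3 * (p ^ (k + 1) * a) = p ^ (k + 3 + 1) * a by ring, h.Gs0_pow hp h1 ha,
        h.Gs0_pow hp h1 ha]
      by_cases hk : 3 ∣ k + 1
      · rw [if_pos hk, if_pos (by omega)]; push_cast; ring
      · rw [if_neg hk, if_neg (by omega), mul_zero]
    rw [this, Complex.re_ofReal_mul, map_mul N (p ^ 3), map_pow]
    push_cast
    field_simp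
    simp
  · have : Gs X 0 (p ^ 3 * c) = ((N p : ℝ) ^ 2 * (N p - 1) : ℝ) * Gs X 0 c := by
      rw [h.Gs0_pow hp h1 hd 2, if_pos (by norm_num)]; push_cast; ring
    rw [this, Complex.re_ofReal_mul, map_mul N (p ^ 3), map_pow]
    push_cast
    field_simp

end Sy

end Pool.Agent.P.MP_26a8c3_nt.QG
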