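import Pool.Agent.P.MP_26a8c3_nt.QO.Res
import Pool.Agent.P.MP_26a8c3_nt.QG.Cube

/-! The Gauss sums in the Fourier coefficients of the cubic Eisenstein series. -/

namespace Pool.Agent.P.MP_26a8c3_nt.QG

open QO
open scoped ComplexConjugate

/-- the properties of the cubic symbol that are used -/
structure Sy (X : O → O → ℂ) : Prop where
  mulr : ∀ n a b, Primary n → X n (a * b) = X n a * X n b
  mull : ∀ a b m, Primary a → Primary b → X (a * b) m = X a m * X b m
  one : ∀ m, X 1 m = 1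
  le : ∀ n m, ‖X n m‖ ≤ 1
  cube : ∀ n m, Primary n → IsCoprime m n → X n m ^ 3 = 1
  zero : ∀ p m, Prime p → Primary p → p ∣ m → X p m = 0
  per : ∀ p, Prime p → Primary p → Per p (X p)
  r1 : ∀ a b, Primary a → Primary b → X a b = X b a
  r2 : ∀ c d d', Primary d → Primary d' → 9 ∣ d - d' → c ∣ d - d' → X d c = X d' c
  ord : ∀ p, Prime p → Primary p → ∃ u, ¬p ∣ u ∧ X p u ≠ 1
  gn : ∀ p, Prime p → Primary p → ft (X p) p 1 * conj (ft (X p) p 1) = N p

variable {X : O → O → ℂ}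

/-- the Gauss sum of the lower row -/
noncomputable def Gs (X : O → O → ℂ) (m c : O) : ℂ :=
  sm (9 * c) fun d => if Primary d then X d c * el (m * d) (9 * c) else 0

/-- the local Gauss sum -/
noncomputable def gk (X : O → O → ℂ) (p : O) (k : ℕ) (m : O) : ℂ :=
  sm (p ^ k) fun a => X p (9 * a) ^ k * el (m * a) (p ^ k)

theorem nine_ne : (9 : O) ≠ 0 := by decide
theorem three_dvd_nine : (3 : O) ∣ 9 := ⟨3, by norm_num⟩

theorem cop9 {p : O} (hp : Primary p) : IsCoprime p 9 := by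
  have := hp.isCoprime_three
  rw [show (9 : O) = 3 * 3 by norm_num]
  exact this.mul_right this

theorem cop_of {p m : O} (hp : Prime p) (h : ¬p ∣ m) : IsCoprime m p :=
  (hp.irreducible.coprime_iff_not_dvd.2 h).symm

theorem not_dvd9 {p : O} (hp : Prime p) (h1 : Primary p) : ¬p ∣ 9 :=
  hp.irreducible.coprime_iff_not_dvd.1 (cop9 h1)

theorem primary_congr {x y : O} (h : (3 : O) ∣ x - y) : Primary x ↔ Primary y :=
  ⟨fun hx => hx.of_dvd_sub (dvd_sub_comm.1 h), fun hy => hy.of_dvd_sub h⟩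

namespace Sy

theorem oner (h : Sy X) {n : O} (hn : Primary n) : X n 1 = 1 := by
  rw [h.r1 n 1 hn primary_one, h.one]

theorem powr (h : Sy X) {n : O} (hn : Primary n) (a : O) (k : ℕ) : X n (a ^ k) = X n a ^ k := by
  induction k with
  | zero => simp [h.oner hn]
  | succ k ih => rw [pow_succ, h.mulr _ _ _ hn, ih, pow_succ]

theorem powl (h : Sy X) {n : O} (hn : Primary n) (a : O) (k : ℕ) : X (n ^ k) a = X n a ^ k := by
  induction k with
  | zero => simp [h.one]
  | succ k ih => rw [pow_succ, h.mull _ _ _ (hn.pow k) hn, ih, pow_succ]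

theorem conj_eq (h : Sy X) {n m : O} (hn : Primary n) (hc : IsCoprime m n) :
    conj (X n m) = X n m ^ 2 := by
  have h3 := h.cube n m hn hc
  have h1 : ‖X n m‖ = 1 := by
    have := congrArg norm h3
    rw [norm_pow, norm_one] at this
    exact (pow_eq_one_iff_of_nonneg (norm_nonneg _) (by norm_num)).1 this
  have h2 : X n m * conj (X n m) = 1 := by
    rw [Complex.mul_conj, Complex.normSq_eq_norm_sq, h1]; simp
  linear_combination (X n m ^ 2) * h2 - conj (X n m) * h3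

theorem perG (h : Sy X) (m c : O) :
    Per (9 * c) fun d => if Primary d then X d c * el (m * d) (9 * c) else 0 := by
  intro x y e
  have e9 : (9 : O) ∣ x - y := (dvd_mul_right _ _).trans e
  have e3 := primary_congr (three_dvd_nine.trans e9)
  by_cases hx : Primary x
  · simp only [if_pos hx, if_pos (e3.1 hx)]
    rw [h.r2 c x y hx (e3.1 hx) e9 ((dvd_mul_left _ _).trans e),
      el_congr (x := m * x) (y := m * y) (by rw [← mul_sub]; exact e.mul_left m)]
  · simp only [if_neg hx, if_neg (mt e3.2 hx)]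

theorem norm_Gs (h : Sy X) (m : O) {c : O} (hc : c ≠ 0) : ‖Gs X m c‖ ≤ 81 * N c := by
  refine (norm_sm_le (B := 1) (mul_ne_zero nine_ne hc) fun d => ?_).trans (le_of_eq ?_)
  · split_ifs
    · simpa using h.le d c
    · simp
  · simp

/-- splitting off a prime power -/
theorem Gs_pow (h : Sy X) {p c : O} (hp : Prime p) (h1 : Primary p) (hc : ¬p ∣ c) (k : ℕ) (m : O) :
    Gs X m (p ^ (k + 1) * c) = Gs X m c * X p c ^ (2 * (k + 1)) * gk X p (k + 1) m := by
  have hc0 : c ≠ 0 := by rintro rfl; exact hc (dvd_zero _)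
  have h9 : (9 * c : O) ≠ 0 := mul_ne_zero nine_ne hc0
  have hq : p ^ (k + 1) ≠ 0 := pow_ne_zero _ hp.ne_zero
  have hq1 := h1.pow (k + 1)
  have hco : IsCoprime (9 * c) (p ^ (k + 1)) :=
    ((cop9 h1).symm.mul_left (cop_of hp hc)).pow_right
  have hP := h.perG m (p ^ (k + 1) * c)
  have e : 9 * (p ^ (k + 1) * c) = 9 * c * p ^ (k + 1) := by ring
  rw [e] at hP
  rw [mul_right_comm (Gs X m c), Gs, e, sm_crt h9 hq hco hP, Gs, gk, sm_mul_sm, ← sm_mul_right]
  refine sm_congr fun a => ?_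
  rw [← sm_mul_right]
  refine sm_congr fun b => ?_
  have e3 : Primary (a * p ^ (k + 1) + b * (9 * c)) ↔ Primary (p ^ (k + 1) * a) :=
    primary_congr ⟨b * 3 * c, by ring⟩
  rw [primary_mul_iff hq1] at e3
  by_cases ha : Primary a
  · have hd := e3.2 ha
    rw [if_pos hd, if_pos ha, h.mulr _ _ _ hd, h.powr hd, h.r1 _ p hd h1,
      h.per p hp h1 _ (9 * b * c) ⟨a * p ^ k, by ring⟩, h.mulr _ _ _ h1,
      h.r2 c _ (a * p ^ (k + 1)) hd (ha.mul hq1) ⟨b * c, by ring⟩ ⟨b * 9, by ring⟩,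
      h.mull _ _ _ ha hq1, h.powl h1,
      show m * (a * p ^ (k + 1) + b * (9 * c)) = m * a * p ^ (k + 1) + m * b * (9 * c) by ring,
      el_frac _ _ h9 hq]
    ring
  · rw [if_neg ha, if_neg (mt e3.1 ha)]; simp

/-- a prime factor of the frequency -/
theorem Gs_mul (h : Sy X) {p c : O} (hp : Prime p) (h1 : Primary p) (hc : ¬p ∣ c) (m : O) :
    Gs X (m * p) c = X p c ^ 2 * Gs X m c := by
  have hco : IsCoprime p (9 * c) := (cop9 h1).mul_right (cop_of hp hc).symm
  have e : Gs X m c = X p c * Gs X (m * p) c := by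
    rw [Gs, ← sm_scale (h.perG m c) hco, Gs, ← sm_mul_left]
    refine sm_congr fun d => ?_
    by_cases hd : Primary d
    · rw [if_pos hd, if_pos (h1.mul hd), h.mull _ _ _ h1 hd, mul_assoc, mul_assoc]
    · rw [if_neg hd, if_neg (mt (primary_mul_iff h1).1 hd), mul_zero]
  rw [e]
  linear_combination (-Gs X (m * p) c) * h.cube p c h1 (cop_of hp hc)

/-! ### the table of local sums -/

theorem perH (h : Sy X) {p : O} (hp : Prime p) (h1 : Primary p) (j : ℕ) :
    Per p fun a => X p (9 * a) ^ j := ((h.per p hp h1).mul_left 9).comp (· ^ j)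

theorem gk_ft (p : O) (k : ℕ) (m : O) :
    gk X p (k + 1) m = ft (fun a => X p (9 * a) ^ (k + 1)) (p * p ^ k) m := by
  rw [gk, ft, pow_succ' p k]
  exact sm_congr fun a => by rw [mul_comm m a]

theorem gk_not (h : Sy X) {p m : O} (hp : Prime p) (h1 : Primary p) {k : ℕ} (hm : ¬p ^ k ∣ m) :
    gk X p (k + 1) m = 0 := by
  rw [gk_ft, ft_lift_not hp.ne_zero (pow_ne_zero _ hp.ne_zero) (h.perH hp h1 _) hm]

theorem gk_mul (h : Sy X) {p : O} (hp : Prime p) (h1 : Primary p) (k : ℕ) (m : O) :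
    gk X p (k + 1) (m * p ^ k) = (N p : ℂ) ^ k * ft (fun a => X p (9 * a) ^ (k + 1)) p m := by
  rw [gk_ft, ft_lift_mul hp.ne_zero (pow_ne_zero _ hp.ne_zero) (h.perH hp h1 _), map_pow]
  push_cast; rfl

theorem sm_H0 (h : Sy X) {p : O} (hp : Prime p) (h1 : Primary p) {j : ℕ} (hj : ¬3 ∣ j) :
    sm p (fun a => X p (9 * a) ^ j) = 0 := by
  obtain ⟨u, hu, hu1⟩ := h.ord p hp h1
  have h3 := h.cube p u h1 (cop_of hp hu)
  have hne : X p u ^ j ≠ 1 := by
    intro e
    obtain ⟨i, hi | hi⟩ : ∃ i, j = 3 * i + 1 ∨ j = 3 * i + 2 := ⟨j / 3, by omega⟩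
    · rw [hi, pow_add, pow_mul, h3] at e; exact hu1 (by simpa using e)
    · rw [hi, pow_add, pow_mul, h3, one_pow, one_mul] at e
      exact hu1 (by linear_combination h3 - X p u * e)
  have e := sm_scale (h.perH hp h1 j) (cop_of hp hu)
  have e2 : sm p (fun x => X p (9 * (u * x)) ^ j) = X p u ^ j * sm p fun a => X p (9 * a) ^ j := by
    rw [← sm_mul_left]
    exact sm_congr fun a => by rw [mul_left_comm, h.mulr _ _ _ h1, mul_pow]
  rw [e2] at e
  have : (X p u ^ j - 1) * sm p (fun a => X p (9 * a) ^ j) = 0 := by linear_combination e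
  exact (mul_eq_zero.1 this).resolve_left (sub_ne_zero.2 hne)

open Classical in
theorem ft_H3 (h : Sy X) {p : O} (hp : Prime p) (h1 : Primary p) (j : ℕ) (m : O) :
    ft (fun a => X p (9 * a) ^ (3 * (j + 1))) p m = (if p ∣ m then (N p : ℂ) else 0) - 1 := by
  have e : (fun a => X p (9 * a) ^ (3 * (j + 1))) = fun a => 1 - if p ∣ a then (1 : ℂ) else 0 := by
    ext a
    split_ifs with ha
    · rw [h.zero p _ hp h1 (ha.mul_left 9)]; simp
    · rw [pow_mul, h.cube p _ h1 (cop_of hp (mt hp.dvd_mul.1 (not_or.2 ⟨not_dvd9 hp h1, ha⟩)))]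
      simp
  rw [e, ft_sub hp.ne_zero, ft, ft, sm_single hp.ne_zero ((per_ite_dvd p 1 0).mul (per_el p m)) 0
    fun x hx => by rw [if_neg (by simpa using hx), zero_mul]]
  simp [sm_el hp.ne_zero]

theorem ft_H1 (h : Sy X) {p m : O} (hp : Prime p) (h1 : Primary p) (hm : ¬p ∣ m) :
    ft (fun a => X p (9 * a) ^ 1) p m = X p 9 * X p m ^ 2 * ft (X p) p 1 := by
  have e := ft_scale (h.per p hp h1) (cop_of hp hm) 1
  simp only [h.mulr _ _ _ h1, one_mul, mul_comm _ (X p m), ft_mul_left] at e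
  simp only [pow_one, h.mulr _ _ _ h1, ft_mul_left]
  rw [← e]
  linear_combination (-(X p 9 * ft (fun x => X p x) p m)) * h.cube p m h1 (cop_of hp hm)

theorem gk_zero (h : Sy X) {p : O} (hp : Prime p) (h1 : Primary p) (k : ℕ) :
    gk X p (k + 1) 0 = if 3 ∣ k + 1 then (N p : ℂ) ^ k * (N p - 1) else 0 := by
  have e := h.gk_mul hp h1 k 0
  rw [zero_mul] at e
  rw [e]
  split_ifs with hk
  · obtain ⟨j, hj⟩ := hk
    obtain ⟨i, rfl⟩ : ∃ i, j = i + 1 := ⟨j - 1, by omega⟩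
    rw [hj, h.ft_H3 hp h1, if_pos (dvd_zero p)]
  · rw [ft_zero, h.sm_H0 hp h1 hk, mul_zero]

theorem gk_one (h : Sy X) {p m : O} (hp : Prime p) (h1 : Primary p) (hm : ¬p ∣ m) :
    gk X p 1 m = X p 9 * X p m ^ 2 * ft (X p) p 1 := by
  have e := h.gk_mul hp h1 0 m
  simp only [pow_zero, mul_one, one_mul, zero_add] at e
  rw [e, h.ft_H1 hp h1 hm]

theorem gk_big (h : Sy X) {p m : O} (hp : Prime p) (h1 : Primary p) (hm : ¬p ∣ m) {k l : ℕ}
    (hk : l < k) : gk X p (k + 1) (m * p ^ l) = 0 := by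
  refine h.gk_not hp h1 fun hd => hm ?_
  have : p * p ^ l ∣ m * p ^ l := by
    rw [← pow_succ']; exact (pow_dvd_pow p hk).trans hd
  exact (mul_dvd_mul_iff_right (pow_ne_zero _ hp.ne_zero)).1 this

theorem gk_small (p m : O) {k l : ℕ}
    (hk : k < l) : gk X p (k + 1) (m * p ^ l) = gk X p (k + 1) 0 := by
  rw [gk, gk]
  refine sm_congr fun a => ?_
  rw [el_congr (y := 0 * a) (by
    simpa using ((pow_dvd_pow p hk).mul_left m).mul_right a)]

theorem gk_three (h : Sy X) {p m : O} (hp : Prime p) (h1 : Primary p) (hm : ¬p ∣ m) :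
    gk X p 3 (m * p ^ 2) = -(N p : ℂ) ^ 2 := by
  rw [h.gk_mul hp h1 2 m, show 2 + 1 = 3 * (0 + 1) from rfl, h.ft_H3 hp h1, if_neg hm]
  ring

end Sy

end Pool.Agent.P.MP_26a8c3_nt.QG
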