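import Pool.Agent.P.MP_26a8c3_nt.QG.G0

/-! The exponential sum of the constant term: bound, limit, share of the multiples of a prime. -/

namespace Pool.Agent.P.MP_26a8c3_nt.QG

open QO Filter Topology
open scoped Classical

variable {X : O → O → ℂ}

/-- the term of the exponential sum -/
noncomputable def tm (X : O → O → ℂ) (l : ℝ) (c : O) : ℝ := hr X c * Real.exp (-(l * N c))

/-- the cube root of three -/
noncomputable def th : ℝ := (3 : ℝ) ^ (1 / 3 : ℝ)

theorem one_lt_th : 1 < th := Real.one_lt_rpow (by norm_num) (by norm_num)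

theorem th_cube (j : ℕ) : (th ^ j) ^ 3 = 3 ^ j := by
  have : th ^ 3 = 3 := by
    rw [th, ← Real.rpow_natCast, ← Real.rpow_mul (by norm_num)]; norm_num
  rw [← pow_mul, mul_comm, pow_mul, this]

theorem sum_th : Summable fun u : UU => (th ^ u.2)⁻¹ := by
  have h0 : 0 < th := lt_trans one_pos one_lt_th
  rw [summable_prod_of_nonneg fun _ => by positivity]
  refine ⟨fun _ => ?_, Summable.of_finite⟩
  simp only [← inv_pow]
  exact summable_geometric_of_lt_one (by positivity) (inv_lt_one_of_one_lt₀ one_lt_th)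

theorem fe_ind (l : ℝ) : (fun n => ff n * Ex l n) =
    {n | Primary n}.indicator fun n : O => ff n * Real.exp (-(l * (N n : ℝ) ^ 3)) := by
  ext n; simp [Ex, Set.indicator]

namespace Sy

theorem tm_nonneg (h : Sy X) (l : ℝ) (c : O) : 0 ≤ tm X l c :=
  mul_nonneg (h.hr_nonneg c) (Real.exp_pos _).le

theorem tm_phi (h : Sy X) (l : ℝ) (u : UU) (n : PO) : tm X l (ub u * n.1 ^ 3) =
    hr X (ub u) * (ff n.1 * Real.exp (-(l * (th ^ u.2) ^ 3 * (N n.1 : ℝ) ^ 3))) := by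
  rw [tm, h.hr_phi u n.2, map_mul, map_pow, th_cube]
  push_cast
  rw [N_ub, mul_assoc, mul_assoc]

theorem sum_all (h : Sy X) (hc : CntH) : ∃ K s : ℝ, 0 < s ∧
    (∀ l, 0 < l → Summable (tm X l) ∧ l ^ (1 / 3 : ℝ) * ∑' c, tm X l c ≤ K) ∧
    Tendsto (fun l => l ^ (1 / 3 : ℝ) * ∑' c, tm X l c) (𝓝[>] 0) (𝓝 s) := by
  obtain ⟨K, C, hC, hb, hl⟩ := cube_all hc
  have h0 : ∀ j : ℕ, 0 < th ^ j := fun j => pow_pos (lt_trans one_pos one_lt_th) j
  set t : ℝ → ℝ := fun l => l ^ (1 / 3 : ℝ) * ∑' n, ff n * Ex l n with ht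
  have fs : ∀ l, 0 < l → Summable fun n => ff n * Ex l n := fun l hl0 =>
    (hb l hl0).1.of_nonneg_of_le (fun n => mul_nonneg (ff_nonneg n) (Ex_nonneg l n))
      fun n => mul_le_of_le_one_left (Ex_nonneg l n) (ff_le n)
  have t0 : ∀ l, 0 < l → 0 ≤ t l := fun l hl0 => mul_nonneg (Real.rpow_nonneg hl0.le _)
    (tsum_nonneg fun n => mul_nonneg (ff_nonneg n) (Ex_nonneg l n))
  have tK : ∀ l, 0 < l → t l ≤ K := fun l hl0 => le_trans (mul_le_mul_of_nonneg_left
    ((fs l hl0).tsum_le_tsum (fun n => mul_le_of_le_one_left (Ex_nonneg l n) (ff_le n))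
      (hb l hl0).1) (Real.rpow_nonneg hl0.le _)) (hb l hl0).2
  have inner : ∀ l, 0 < l → ∀ u : UU, HasSum (fun n : PO => l ^ (1 / 3 : ℝ) * tm X l (ub u * n.1 ^ 3))
      (hr X (ub u) * (th ^ u.2)⁻¹ * t (l * (th ^ u.2) ^ 3)) := by
    intro l hl0 u
    have h1 := (fs _ (mul_pos hl0 (pow_pos (h0 u.2) 3))).hasSum
    rw [fe_ind, ← hasSum_subtype_iff_indicator, ← fe_ind] at h1
    have h2 : HasSum (fun n : PO => l ^ (1 / 3 : ℝ) * (hr X (ub u) *
        (ff n.1 * Real.exp (-(l * (th ^ u.2) ^ 3 * (N n.1 : ℝ) ^ 3))))) _ :=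
      (h1.mul_left (hr X (ub u))).mul_left (l ^ (1 / 3 : ℝ))
    simp only [h.tm_phi, ht, third_mul hl0 (h0 u.2)]
    have := (h0 u.2).ne'
    convert h2 using 1
    field_simp
  have bd : ∀ l, 0 < l → ∀ u : UU,
      ‖hr X (ub u) * (th ^ u.2)⁻¹ * t (l * (th ^ u.2) ^ 3)‖ ≤ 81 * K * (th ^ u.2)⁻¹ := by
    intro l hl0 u
    have h1 := mul_pos hl0 (pow_pos (h0 u.2) 3)
    have h2 := t0 _ h1
    have h3 := tK _ h1
    have h4 := h.hr_nonneg (ub u)
    have h5 := h.hr_le (ub u)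
    have h6 := h0 u.2
    rw [Real.norm_of_nonneg (by positivity), mul_right_comm]
    gcongr
  have main : ∀ l, 0 < l → Summable (tm X l) ∧ l ^ (1 / 3 : ℝ) * ∑' c, tm X l c =
      ∑' u : UU, hr X (ub u) * (th ^ u.2)⁻¹ * t (l * (th ^ u.2) ^ 3) := by
    intro l hl0
    have hl3 : 0 < l ^ (1 / 3 : ℝ) := Real.rpow_pos_of_pos hl0 _
    have hz : ∀ c ∉ Set.range fun x : UU × PO => ub x.1 * x.2.1 ^ 3,
        l ^ (1 / 3 : ℝ) * tm X l c = 0 := fun c hc => by simp [tm, h.hr_supp c hc]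
    have hs : Summable fun x : UU × PO => l ^ (1 / 3 : ℝ) * tm X l (ub x.1 * x.2.1 ^ 3) := by
      rw [summable_prod_of_nonneg fun _ => mul_nonneg hl3.le (h.tm_nonneg _ _)]
      refine ⟨fun u => (inner l hl0 u).summable, ?_⟩
      simp only [fun u => (inner l hl0 u).tsum_eq]
      exact Summable.of_norm_bounded (sum_th.mul_left _) (bd l hl0)
    have h1 := (phi_inj.hasSum_iff hz).1 hs.hasSum
    refine ⟨(summable_mul_left_iff hl3.ne').1 h1.summable, ?_⟩
    rw [← tsum_mul_left, h1.tsum_eq, hs.tsum_prod]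
    exact tsum_congr fun u => (inner l hl0 u).tsum_eq
  have lim : Tendsto (fun l => ∑' u : UU, hr X (ub u) * (th ^ u.2)⁻¹ * t (l * (th ^ u.2) ^ 3))
      (𝓝[>] 0) (𝓝 (∑' u : UU, hr X (ub u) * (th ^ u.2)⁻¹ * C)) := by
    refine tendsto_tsum_of_dominated_convergence (sum_th.mul_left (81 * K)) (fun u => ?_) ?_
    · exact (hl.comp (tendsto_scale (pow_pos (h0 u.2) 3))).const_mul _
    · filter_upwards [self_mem_nhdsWithin] with l hl0 using bd l hl0
  refine ⟨∑' u : UU, 81 * K * (th ^ u.2)⁻¹, ∑' u : UU, hr X (ub u) * (th ^ u.2)⁻¹ * C, ?_,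
    fun l hl0 => ⟨(main l hl0).1, ?_⟩, lim.congr' ?_⟩
  · have nn : ∀ u : UU, 0 ≤ hr X (ub u) * (th ^ u.2)⁻¹ * C := fun u =>
      mul_nonneg (mul_nonneg (h.hr_nonneg _) (inv_pos.2 (h0 _)).le) hC.le
    refine Summable.tsum_pos ((sum_th.mul_left (81 * C)).of_nonneg_of_le nn fun u => ?_) nn
      (⟨1, by decide⟩, 6) (mul_pos (mul_pos h.hr_pos (inv_pos.2 (h0 _))) hC)
    have h5 := h.hr_le (ub u)
    have h6 := h0 u.2
    rw [mul_right_comm]
    gcongr
  · rw [(main l hl0).2]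
    exact (le_abs_self _).trans (tsum_of_norm_bounded (sum_th.mul_left _).hasSum (bd l hl0))
  · filter_upwards [self_mem_nhdsWithin] with l hl0 using (main l hl0).2.symm

/-- the share of the multiples of a prime -/
theorem share (h : Sy X) {K s : ℝ}
    (hb : ∀ l, 0 < l → Summable (tm X l) ∧ l ^ (1 / 3 : ℝ) * ∑' c, tm X l c ≤ K)
    (hl : Tendsto (fun l => l ^ (1 / 3 : ℝ) * ∑' c, tm X l c) (𝓝[>] 0) (𝓝 s))
    {p : O} (hp : Prime p) (h1 : Primary p) :
    Tendsto (fun l => l ^ (1 / 3 : ℝ) * ∑' c, if p ∣ c then tm X l c else 0) (𝓝[>] 0)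
      (𝓝 (s / (N p + 1))) := by
  have hP := N_pos_real hp.ne_zero
  have hP2 : (2 : ℝ) ≤ N p := by exact_mod_cast two_le_N hp
  set t : ℝ → ℝ := fun l => l ^ (1 / 3 : ℝ) * ∑' c, tm X l c with ht
  set a : ℝ → ℝ := fun l => l ^ (1 / 3 : ℝ) * ∑' c, if p ∣ c then 0 else tm X l c with ha
  have nn : ∀ l c, 0 ≤ if p ∣ c then 0 else tm X l c := fun l c => by
    split_ifs; exacts [le_rfl, h.tm_nonneg l c]
  have le : ∀ l c, (if p ∣ c then 0 else tm X l c) ≤ tm X l c := fun l c => by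
    split_ifs; exacts [h.tm_nonneg l c, le_rfl]
  have sa : ∀ l, 0 < l → Summable fun c => if p ∣ c then 0 else tm X l c := fun l hl0 =>
    (hb l hl0).1.of_nonneg_of_le (nn l) (le l)
  have e1 : ∀ l, 0 < l →
      l ^ (1 / 3 : ℝ) * ∑' c, (if p ∣ c then tm X l c else 0) = t l - a l := by
    intro l hl0
    simp only [ht, ha]
    rw [← mul_sub, ← (hb l hl0).1.tsum_sub (sa l hl0)]
    congr 2; ext c; split_ifs <;> simp
  have e2 : ∀ l, 0 < l → t l - a l =
      (N p : ℝ)⁻¹ * t (l * (N p : ℝ) ^ 3) - (N p : ℝ)⁻¹ ^ 2 * a (l * (N p : ℝ) ^ 3) := by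
    intro l hl0
    have hl1 := mul_pos hl0 (pow_pos hP 3)
    have f1 : ∀ c, (if p ∣ c then tm X l c else 0) = if p ^ 3 ∣ c then tm X l c else 0 := by
      intro c
      by_cases h3 : p ^ 3 ∣ c
      · rw [if_pos h3, if_pos ((dvd_pow_self p (by norm_num)).trans h3)]
      · rw [if_neg h3]
        split_ifs with hd
        · simp [tm, h.hr_low hp h1 hd h3]
        · rfl
    have f2 : ∀ c, tm X l (p ^ 3 * c) = tm X (l * (N p : ℝ) ^ 3) c -
        (N p : ℝ)⁻¹ * if p ∣ c then 0 else tm X (l * (N p : ℝ) ^ 3) c := by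
      intro c
      rw [tm, tm, h.hr_cube hp h1, map_mul, map_pow]
      push_cast
      rw [← mul_assoc l]
      split_ifs <;> ring
    rw [← e1 l hl0]
    simp only [f1, ht, ha]
    rw [tsum_dvd (pow_ne_zero 3 hp.ne_zero), third_mul hl0 hP]
    simp only [f2]
    rw [(hb _ hl1).1.tsum_sub ((sa _ hl1).mul_left _), tsum_mul_left]
    field_simp
  have hg := tendsto_scale (pow_pos hP 3)
  have hθ : ‖(((N p : ℝ)⁻¹ ^ 2 : ℝ) : ℂ)‖ < 1 := by
    rw [Complex.norm_real, Real.norm_of_nonneg (by positivity)]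
    exact pow_lt_one₀ (by positivity) (inv_lt_one_of_one_lt₀ (by linarith)) (by norm_num)
  have key := contr (a := fun l => (a l : ℂ)) (K := K)
    (b := fun l => ((t l - (N p : ℝ)⁻¹ * t (l * (N p : ℝ) ^ 3) : ℝ) : ℂ))
    (B := ((s - (N p : ℝ)⁻¹ * s : ℝ) : ℂ)) hg hθ ?_
    ((Complex.continuous_ofReal.tendsto _).comp (hl.sub ((hl.comp hg).const_mul _))) ?_
  · rw [← Complex.ofReal_one, ← Complex.ofReal_sub, ← Complex.ofReal_div] at key
    have k2 := hl.sub ((Complex.continuous_re.tendsto _).comp key)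
    have e3 : s - (s - (N p : ℝ)⁻¹ * s) / (1 - (N p : ℝ)⁻¹ ^ 2) = s / (N p + 1) := by
      have h2 : (N p : ℝ) ^ 2 - 1 ≠ 0 := by nlinarith
      field_simp
      ring
    rw [Complex.ofReal_re, e3] at k2
    refine k2.congr' ?_
    filter_upwards [self_mem_nhdsWithin] with l hl0
    rw [e1 l hl0]; simp [ht]
  · filter_upwards [self_mem_nhdsWithin] with l hl0
    have hl3 : 0 ≤ l ^ (1 / 3 : ℝ) := Real.rpow_nonneg (le_of_lt hl0) _
    rw [Complex.norm_real, Real.norm_of_nonneg (mul_nonneg hl3 (tsum_nonneg (nn l)))]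
    exact le_trans (mul_le_mul_of_nonneg_left
      ((sa l hl0).tsum_le_tsum (le l) (hb l hl0).1) hl3) (hb l hl0).2
  · filter_upwards [self_mem_nhdsWithin] with l hl0
    rw [← Complex.ofReal_mul, ← Complex.ofReal_add]
    congr 1
    linarith [e2 l hl0]

end Sy

end Pool.Agent.P.MP_26a8c3_nt.QG
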