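import Pool.Agent.P.MP_26a8c3_nt.QG.GL
import Pool.Agent.P.MP_26a8c3_nt.QT.St
import Pool.Agent.P.MP_26a8c3_nt.QO.FT
import Pool.Agent.P.MP_26a8c3_nt.QK.Lim

/-! The Gauss sum identities, the constant term and the Hecke relations of the theta layer. -/

namespace Pool.Agent.P.MP_26a8c3_nt.QG

open QO QT Filter Topology
open scoped Classical ComplexConjugate

theorem chi_ne (A : Alg) {p : O} (hp : Prime p) (h1 : Primary p) : chi p ≠ cop p := by
  have := (A.ord p 1 hp h1).1 (by norm_num)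
  simpa only [pow_one] using this

theorem sy (A : Alg) : Sy chi where
  mulr n a b _ := chi_mul n a b
  mull _ _ m ha hb := chi_mul_left ha.ne_zero hb.ne_zero m
  one := chi_one_left
  le := norm_chi_le
  cube n m hn h := by rw [chi_cube hn.ne_zero, QO.cop_of h]
  zero p m hp _ h := (chi_eq_zero hp.ne_zero).2 fun hc => hp.coprime_iff_not_dvd.1 hc.symm h
  per _ _ _ _ _ := chi_congr
  r1 := A.r1
  r2 := A.r2
  ord p hp h1 := by
    by_contra hc
    push Not at hc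
    refine chi_ne A hp h1 (funext fun u => ?_)
    rw [cop_prime hp]
    split_ifs with hu
    · exact (chi_eq_zero hp.ne_zero).2 fun hc => hp.coprime_iff_not_dvd.1 hc.symm hu
    · exact hc u hu
  gn p hp h1 := ft_mul_conj hp (isNu_chi hp.ne_zero) (chi_ne A hp h1)

theorem Gs_eq (m c : O) : QT.Gs m c = Gs chi m c := by
  unfold QT.Gs Gs
  congr

theorem gk_eq (p : O) (k : ℕ) (m : O) : QT.gk p k m = gk chi p k m := rfl

theorem Gs_T1 (A : Alg) (m : O) {c : O} (hc : c ≠ 0) (h3 : 3 ∣ c) :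
    Gs chi m c * el m 9 = Gs chi m c := by
  conv_rhs => rw [Gs, ← sm_shift ((sy A).perG m c) c]
  rw [Gs, ← sm_mul_right]
  refine sm_congr fun d => ?_
  have e : Primary (d + c) ↔ Primary d := primary_congr (by simpa using h3)
  by_cases hd : Primary d
  · rw [if_pos hd, if_pos (e.2 hd), add_comm d c, A.kub.2.1 c d h3 hd, mul_add, el_add,
      el_mul_cancel _ _ hc]
    ring
  · rw [if_neg hd, if_neg (mt e.1 hd), zero_mul]

theorem pGs (A : Alg) : S_Gs := by
  have h := sy A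
  simp only [S_Gs, Gs_eq, gk_eq]
  refine ⟨fun p c m k hp h1 _ hc hk => ?_, fun p c m hp h1 _ hc => h.Gs_mul hp h1 hc m,
    fun p m k hp h1 hk hm => ?_, fun p m k l hp h1 hm hk => ?_,
    fun p m hp h1 hm => h.gk_three hp h1 hm, fun p m hp h1 hm => ?_, fun m c => Gs_T1 A m⟩
  · obtain ⟨j, rfl⟩ : ∃ j, k = j + 1 := ⟨k - 1, by omega⟩
    exact h.Gs_pow hp h1 hc j m
  · obtain ⟨j, rfl⟩ : ∃ j, k = j + 1 := ⟨k - 1, by omega⟩
    obtain ⟨a, rfl⟩ := hm
    rw [mul_comm _ a, Sy.gk_small p a j.lt_succ_self, h.gk_zero hp h1, mul_comm]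
    rfl
  · obtain ⟨j, rfl⟩ : ∃ j, k = j + 1 := ⟨k - 1, by omega⟩
    exact h.gk_big hp h1 hm (by omega)
  · rw [h.gk_one hp h1 hm, conj_chi, mul_comm (chi p 9)]

theorem sc_eq (A : Alg) (q : O) {y : ℝ} (hy : 0 < y) : sc q y = ((a0 / 81 *
    (y⁻¹ ^ (1 / 3 : ℝ) * ∑' c, if q ∣ c then tm chi y⁻¹ c else 0) : ℝ) : ℂ) := by
  have e : ∀ c : O, gs 0 q 0 c / (N c : ℂ) * ((Real.exp (-(N c / y)) : ℝ) : ℂ) =
      ((a0 / 81 * if q ∣ c then tm chi y⁻¹ c else 0 : ℝ) : ℂ) := by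
    intro c
    rw [gs, Gs_eq, tm, sub_zero, div_eq_inv_mul (N c : ℝ) y]
    have := (sy A).hr_eq c
    by_cases hq : q ∣ c
    · rw [if_pos hq, Complex.ofReal_mul, Complex.ofReal_mul, ← this]
      by_cases h3 : 3 ∣ c ∧ c ≠ 0
      · rw [if_pos h3, if_pos ⟨h3.2, h3.1, hq⟩]; ring
      · rw [if_neg h3, if_neg fun e => h3 ⟨e.2.1, e.1⟩]; simp
    · rw [if_neg hq, if_neg fun e => hq e.2.2]; simp
  rw [sc, Real.inv_rpow hy.le, ← Real.rpow_neg hy.le]
  simp only [e]
  rw [← Complex.ofReal_tsum, tsum_mul_left, ← Complex.ofReal_mul, mul_left_comm]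

theorem pCst (A : Alg) (hc : CntH) : S_Cst := by
  have h := sy A
  obtain ⟨K, s, hs, hb, hl⟩ := h.sum_all hc
  have ha : 0 < a0 / 81 := div_pos a0_pos (by norm_num)
  have key : ∀ (q : O) (L : ℝ), Tendsto (fun l => l ^ (1 / 3 : ℝ) *
      ∑' c, if q ∣ c then tm chi l c else 0) (𝓝[>] 0) (𝓝 L) →
      Tendsto (sc q) atTop (𝓝 ((a0 / 81 * L : ℝ) : ℂ)) := by
    intro q L hL
    refine ((Complex.continuous_ofReal.tendsto _).comp
      ((hL.comp tendsto_inv_atTop_nhdsGT_zero).const_mul (a0 / 81))).congr' ?_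
    filter_upwards [eventually_gt_atTop 0] with y hy using (sc_eq A q hy).symm
  refine ⟨a0 / 81 * s, a0 / 81 * K, mul_pos ha hs, fun q y hy => ?_,
    key 1 s (by simpa only [one_dvd, if_true] using hl), fun p hp h1 => ?_⟩
  · have hy' := inv_pos.2 hy
    have nn : ∀ c, 0 ≤ if q ∣ c then tm chi y⁻¹ c else 0 := fun c => by
      split_ifs; exacts [h.tm_nonneg _ c, le_rfl]
    have le : ∀ c, (if q ∣ c then tm chi y⁻¹ c else 0) ≤ tm chi y⁻¹ c := fun c => by
      split_ifs; exacts [le_rfl, h.tm_nonneg _ c]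
    have h3 : 0 ≤ y⁻¹ ^ (1 / 3 : ℝ) := Real.rpow_nonneg hy'.le _
    rw [sc_eq A q hy, Complex.norm_real,
      Real.norm_of_nonneg (mul_nonneg ha.le (mul_nonneg h3 (tsum_nonneg nn)))]
    refine mul_le_mul_of_nonneg_left (le_trans (mul_le_mul_of_nonneg_left ?_ h3) (hb _ hy').2) ha.le
    exact ((hb _ hy').1.of_nonneg_of_le nn le).tsum_le_tsum le (hb _ hy').1
  · rw [mul_div_assoc]
    exact key p _ (h.share hb hl hp h1)

/-! ### the Hecke relations -/

/-- the norm as a real number -/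
abbrev Nr : O → ℝ := fun c => (N c : ℝ)

theorem adm (A : Alg) (hs : Summable fun c : O => ((N c : ℝ) ^ 2)⁻¹) (x q m : O) :
    QK.Adm Nr (gs x q m) := by
  refine QK.adm_of_le (K := a0) (fun c hc => N_pos_real fun e => hc (by simp [gs, e]))
    (fun c => ?_) (hs.of_nonneg_of_le (fun c => by positivity) fun c => ?_)
  · have := a0_pos
    rw [gs]
    split_ifs with h
    · rw [norm_mul, Complex.norm_real, Real.norm_of_nonneg (by positivity), Gs_eq]
      have h2 := (sy A).norm_Gs m h.1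
      calc a0 / 81 * ‖Gs chi m c‖ ≤ a0 / 81 * (81 * N c) := by gcongr
        _ = _ := by ring
    · simp only [norm_zero]; positivity
  · by_cases hc : c = 0
    · simp [hc, Nr]
    · have := one_le_N hc
      exact inv_anti₀ (by positivity) (pow_le_pow_right₀ this (by norm_num))

/-- the part prime to `p` -/
noncomputable def fr (x p m c : O) : ℂ := gs x 1 m c - gs x p m c

theorem fr_eq (x p m c : O) : fr x p m c =
    if c ≠ 0 ∧ (3 : O) ∣ c - x ∧ ¬p ∣ c then ((a0 / 81 : ℝ) : ℂ) * Gs chi m c else 0 := by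
  simp only [fr, gs, Gs_eq, one_dvd, and_true]
  by_cases h1 : c ≠ 0 <;> by_cases h2 : (3 : O) ∣ c - x <;> by_cases h3 : p ∣ c <;> simp [h1, h2, h3]

theorem cls_iff {a : O} (ha : Primary a) (c x : O) : (3 : O) ∣ a * c - x ↔ (3 : O) ∣ c - x :=
  dvd_congr (by rw [show a * c - x - (c - x) = (a - 1) * c by ring]; exact Dvd.dvd.mul_right ha c)

theorem B_pos {m : O} (hm : m ≠ 0) : 0 < B0 * N m :=
  mul_pos (by unfold B0; positivity) (N_pos_real hm)

/-- the multiples of `p` when only one power of `p` contributes -/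
theorem gs_pow (A : Alg) {p m m' : O} (hp : Prime p) (h1 : Primary p) (x : O) (k : ℕ) (u : ℂ)
    (h0 : ∀ j, j ≠ k → gk chi p (j + 1) m = 0)
    (hu : ∀ c, ¬p ∣ c → Gs chi m (p ^ (k + 1) * c) = u * Gs chi m' c) :
    (∀ c, gs x p m c ≠ 0 → c ∈ Set.range fun c => p ^ (k + 1) * c) ∧
      ∀ c, gs x p m (p ^ (k + 1) * c) = u * fr x p m' c := by
  have h := sy A
  have key : ∀ j a, ¬p ∣ a → gs x p m (p ^ (j + 1) * a) ≠ 0 → j = k := by
    intro j a ha hne
    by_contra hj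
    rw [gs, Gs_eq, h.Gs_pow hp h1 ha, h0 j hj] at hne
    simp at hne
  refine ⟨fun c hc => ?_, fun c => ?_⟩
  · have h2 : c ≠ 0 ∧ (3 : O) ∣ c - x ∧ p ∣ c := by
      by_contra e; exact hc (if_neg e)
    obtain ⟨j, a, ha, rfl⟩ := exists_pow hp h2.1 h2.2.2
    obtain rfl := key j a ha hc
    exact ⟨a, rfl⟩
  · rw [fr_eq]
    split_ifs with hc
    · rw [gs, Gs_eq, if_pos ⟨mul_ne_zero (pow_ne_zero _ hp.ne_zero) hc.1,
        (cls_iff (h1.pow _) c x).2 hc.2.1, (dvd_pow_self p k.succ_ne_zero).mul_right c⟩,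
        hu c hc.2.2, mul_left_comm]
    · rw [mul_zero]
      by_contra hne
      have h2 : p ^ (k + 1) * c ≠ 0 ∧ (3 : O) ∣ p ^ (k + 1) * c - x ∧ p ∣ p ^ (k + 1) * c := by
        by_contra e; exact hne (if_neg e)
      have h3 := right_ne_zero_of_mul h2.1
      have h4 : p ∣ c := by
        by_contra e; exact hc ⟨h3, (cls_iff (h1.pow _) c x).1 h2.2.1, e⟩
      obtain ⟨j, a, ha, rfl⟩ := exists_pow hp h3 h4
      rw [← mul_assoc, ← pow_add] at hne
      have := key (k + 1 + j) a ha hne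
      omega

section

variable {As : O → O → ℂ}

theorem lim_fr (A : Alg) (hs : Summable fun c : O => ((N c : ℝ) ^ 2)⁻¹) (I : IsAs As) {p m : O}
    (hp : Prime p) (h1 : Primary p) (hm : m ≠ 0) (x : O) :
    QK.Lim Nr (fr x p m) 1 (As x m - As x m / (N p + 1)) :=
  QK.Lim.sub (adm A hs x 1 m) (adm A hs x p m) zero_le_one
    (QK.Lim.change (I.lim x m) (B_pos hm) one_pos)
    (QK.Lim.change (I.limp p x m hp h1) (B_pos hm) one_pos)

theorem rel (A : Alg) (hs : Summable fun c : O => ((N c : ℝ) ^ 2)⁻¹) (I : IsAs As) {p m m' : O}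
    (hp : Prime p) (h1 : Primary p) (hm : m ≠ 0) (hm' : m' ≠ 0) (x : O) (k : ℕ) (u : ℂ)
    (h0 : ∀ j, j ≠ k → gk chi p (j + 1) m = 0)
    (hu : ∀ c, ¬p ∣ c → Gs chi m (p ^ (k + 1) * c) = u * Gs chi m' c) :
    As x m = ((((N p : ℝ) ^ (k + 1)) ^ (-(4 / 3) : ℝ) : ℝ) : ℂ) * (u * As x m') * N p := by
  obtain ⟨e1, e2⟩ := gs_pow A hp h1 x k u h0 hu
  have hi : Function.Injective fun c => p ^ (k + 1) * c := fun _ _ e =>
    mul_left_cancel₀ (pow_ne_zero _ hp.ne_zero) e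
  have l1 := ((lim_fr A hs I hp h1 hm' x).const_mul u).scale
    (pow_pos (N_pos_real hp.ne_zero) (k + 1))
  have l2 : QK.Lim (fun c => Nr (p ^ (k + 1) * c)) (fun c => gs x p m (p ^ (k + 1) * c)) 1
      (((((N p : ℝ) ^ (k + 1)) ^ (-(4 / 3) : ℝ) : ℝ) : ℂ) *
        (u * (As x m' - As x m' / (N p + 1)))) := by
    simpa only [e2, Nr, map_mul, map_pow, Nat.cast_mul, Nat.cast_pow] using l1
  have l3 := QK.Lim.unique (adm A hs x p m) zero_le_one
    (QK.Lim.change (I.limp p x m hp h1) (B_pos hm) one_pos) ((QK.lim_comp hi e1).1 l2)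
  have hP : (N p : ℂ) + 1 ≠ 0 := by exact_mod_cast Nat.succ_ne_zero (N p)
  field_simp at l3
  linear_combination l3

theorem pHec (A : Alg) (hs : Summable fun c : O => ((N c : ℝ) ^ 2)⁻¹) : S_Hec := by
  have h := sy A
  intro As I
  refine ⟨fun x m p hp h1 hm => ?_, fun x m p hp h1 hd => ?_, fun x m p hp h1 hd => ?_, fun m => ?_⟩
  · have hm' : m * p ^ 3 ≠ 0 := mul_ne_zero hm (pow_ne_zero _ hp.ne_zero)
    have e : fr x p (m * p ^ 3) = fr x p m := by
      ext c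
      rw [fr_eq, fr_eq]
      split_ifs with hc
      · rw [show m * p ^ 3 = m * p * p * p by ring, h.Gs_mul hp h1 hc.2.2, h.Gs_mul hp h1 hc.2.2,
          h.Gs_mul hp h1 hc.2.2]
        have := h.cube p c h1 (cop_of hp hc.2.2)
        linear_combination ((a0 / 81 : ℝ) : ℂ) * Gs chi m c * (chi p c ^ 3 + 1) * this
      · rfl
    have l1 := lim_fr A hs I hp h1 hm' x
    rw [e] at l1
    have l2 := QK.Lim.unique ((adm A hs x 1 m).sub (adm A hs x p m)) zero_le_one l1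
      (lim_fr A hs I hp h1 hm x)
    have hP : (N p : ℂ) + 1 ≠ 0 := by exact_mod_cast Nat.succ_ne_zero (N p)
    have hP0 : (N p : ℂ) ≠ 0 := by exact_mod_cast (N_pos hp.ne_zero).ne'
    have l3 : As x (m * p ^ 3) = As x m := by
      field_simp at l2
      exact mul_right_cancel₀ hP0 (by linear_combination l2)
    rw [ta, ta, l3, ab_mul, ab_pow, third_mul (ab_pos hm) (ab_pos hp.ne_zero)]
    push_cast; ring
  · have hm : m * p ^ 2 ≠ 0 := mul_ne_zero (by rintro rfl; exact hd (dvd_zero p))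
      (pow_ne_zero _ hp.ne_zero)
    have l := rel A hs I hp h1 hm hm x 2 (-(N p : ℂ) ^ 2) (fun j hj => ?_) fun c hc => ?_
    · have hr : 0 < ((N p : ℝ) ^ (2 + 1)) ^ (-(4 / 3) : ℝ) * ((N p : ℝ) ^ 2 * N p) + 1 := by
        positivity
      have hr' := Complex.ofReal_ne_zero.2 hr.ne'
      have : As x (m * p ^ 2) = 0 := by
        refine (mul_eq_zero.1 ?_).resolve_left hr'
        push_cast at l ⊢
        linear_combination l
      rw [ta, this, zero_mul]
    · rcases lt_or_gt_of_ne hj with hj | hj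
      · rw [Sy.gk_small p m hj, h.gk_zero hp h1, if_neg (by omega)]
      · exact h.gk_big hp h1 hd hj
    · rw [h.Gs_pow hp h1 hc, h.gk_three hp h1 hd]
      have := h.cube p c h1 (cop_of hp hc)
      linear_combination (-(N p : ℂ) ^ 2) * Gs chi (m * p ^ 2) c * (chi p c ^ 3 + 1) * this
  · have hm : m ≠ 0 := by rintro rfl; exact hd (dvd_zero p)
    have l := rel A hs I hp h1 hm (mul_ne_zero hm hp.ne_zero) x 0 (gk chi p 1 m)
      (fun j hj => by simpa using h.gk_big (l := 0) hp h1 hd (Nat.pos_of_ne_zero hj))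
      fun c hc => by rw [h.Gs_pow hp h1 hc, h.Gs_mul hp h1 hc]; ring
    have ha := ab_pos hp.ne_zero
    obtain ⟨r, hr, hr3⟩ : ∃ r : ℝ, r = ab p ^ (1 / 3 : ℝ) ∧ r ^ 3 = ab p :=
      ⟨_, rfl, by rw [← Real.rpow_natCast, ← Real.rpow_mul ha.le]; norm_num⟩
    have hr0 : 0 < r := hr ▸ Real.rpow_pos_of_pos ha _
    have e6 : (N p : ℝ) = r ^ 6 := by rw [← ab_sq, ← hr3]; ring
    have e8 : ((N p : ℝ) ^ (0 + 1)) ^ (-(4 / 3) : ℝ) = (r ^ 8)⁻¹ := by
      rw [zero_add, pow_one, e6, ← Real.rpow_natCast, ← Real.rpow_mul hr0.le, ← Real.rpow_natCast,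
        ← Real.rpow_neg hr0.le]
      norm_num
    have e6' : (N p : ℂ) = (r : ℂ) ^ 6 := by exact_mod_cast e6
    have g := h.gn p hp h1
    have c1 := h.cube p m h1 (cop_of hp hd)
    have c2 := h.cube p 9 h1 (cop9 h1).symm
    have hrc : (r : ℂ) ≠ 0 := by exact_mod_cast hr0.ne'
    rw [ta, ta, l, e8, h.gk_one hp h1 hd, tau, conj_chi, ab_mul,
      Real.mul_rpow (ab_nonneg m) ha.le, ← hr, ← hr3, e6']
    rw [e6'] at g
    push_cast
    field_simp
    generalize ft (chi p) p 1 = γ at g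
    linear_combination (-(As x (m * p) * ((ab m ^ (1 / 3 : ℝ) : ℝ) : ℂ))) *
      (g + γ * conj γ * c1 + γ * conj γ * chi p m ^ 3 * c2)
  · have e : (fun c => el m 9 * gs 0 1 m c) = gs 0 1 m := by
      ext c
      rw [gs]
      split_ifs with hc
      · rw [Gs_eq, mul_left_comm, mul_comm (el m 9), Gs_T1 A m hc.1 (by simpa using hc.2.1)]
      · simp
    have l1 := QK.Lim.const_mul (I.lim 0 m) (el m 9)
    rw [e] at l1
    have l2 := QK.Lim.unique (adm A hs 0 1 m)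
      (mul_nonneg (by unfold B0; positivity) (Nat.cast_nonneg _)) l1 (I.lim 0 m)
    rw [ta, mul_right_comm, mul_comm (As 0 m), l2]

end

end Pool.Agent.P.MP_26a8c3_nt.QG
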